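import Mathlib

/-!
Wirtinger derivatives of functions `ℂ → ℂ`.
-/

namespace Pool.Agent.P.MP_a11f68_mp

open Complex ComplexConjugate Laplacian Filter Topology

noncomputable section

/-- The real linear map `v ↦ p v + q conj v`. -/
def lin (p q : ℂ) : ℂ →L[ℝ] ℂ :=
  p • ContinuousLinearMap.id ℝ ℂ + q • (conjCLE : ℂ →L[ℝ] ℂ)

@[simp] lemma lin_apply (p q v : ℂ) : lin p q v = p * v + q * conj v := by simp [lin]

/-- `f` has Wirtinger derivatives `p` and `q` at `z`. -/
def HasW (f : ℂ → ℂ) (p q z : ℂ) : Prop := HasFDerivAt f (lin p q) z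

/-- The Wirtinger derivative `d / dz`. -/
def wd (f : ℂ → ℂ) (z : ℂ) : ℂ := (fderiv ℝ f z 1 - I * fderiv ℝ f z I) / 2

/-- The Wirtinger derivative `d / d conj z`. -/
def wb (f : ℂ → ℂ) (z : ℂ) : ℂ := (fderiv ℝ f z 1 + I * fderiv ℝ f z I) / 2

lemma clm_apply (L : ℂ →L[ℝ] ℂ) (v : ℂ) : L v = v.re * L 1 + v.im * L I := by
  conv_lhs => rw [show v = v.re • (1 : ℂ) + v.im • I by simp]
  rw [map_add, map_smul, map_smul]; simp

lemma eq_lin (L : ℂ →L[ℝ] ℂ) : L = lin ((L 1 - I * L I) / 2) ((L 1 + I * L I) / 2) := by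
  ext v
  rw [lin_apply, clm_apply L v]
  have h1 : (v.re : ℂ) = (v + conj v) / 2 := by rw [Complex.re_eq_add_conj]
  have h2 : (v.im : ℂ) = (v - conj v) / (2 * I) := by rw [Complex.im_eq_sub_conj]
  rw [h1, h2]
  field_simp
  linear_combination (L I * v - L I * conj v) * I_sq

lemma hasW_of_differentiableAt {f : ℂ → ℂ} {z : ℂ} (h : DifferentiableAt ℝ f z) :
    HasW f (wd f z) (wb f z) z := by
  unfold HasW wd wb
  rw [← eq_lin]; exact h.hasFDerivAt

variable {f g : ℂ → ℂ} {p q p' q' z : ℂ}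

lemma HasW.wd_eq (h : HasW f p q z) : wd f z = p := by
  unfold wd; rw [HasFDerivAt.fderiv h]; simp
  linear_combination (q - p) / 2 * I_sq

lemma HasW.wb_eq (h : HasW f p q z) : wb f z = q := by
  unfold wb; rw [HasFDerivAt.fderiv h]; simp
  linear_combination (p - q) / 2 * I_sq

lemma HasW.unique (h : HasW f p q z) (h' : HasW f p' q' z) : p = p' ∧ q = q' :=
  ⟨h.wd_eq.symm.trans h'.wd_eq, h.wb_eq.symm.trans h'.wb_eq⟩

lemma HasW.differentiableAt (h : HasW f p q z) : DifferentiableAt ℝ f z :=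
  HasFDerivAt.differentiableAt h

lemma HasW.continuousAt (h : HasW f p q z) : ContinuousAt f z := h.differentiableAt.continuousAt

lemma HasW.congr (h : HasW f p q z) (hp : p = p') (hq : q = q') : HasW f p' q' z := by
  subst hp hq; exact h

lemma HasW.congr_ev (h : HasW f p q z) (hg : g =ᶠ[𝓝 z] f) : HasW g p q z :=
  HasFDerivAt.congr_of_eventuallyEq h hg

lemma HasW.add (h : HasW f p q z) (h' : HasW g p' q' z) :
    HasW (fun z => f z + g z) (p + p') (q + q') z := by
  refine (HasFDerivAt.add h h').congr_fderiv ?_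
  ext v; simp; ring

lemma HasW.sub (h : HasW f p q z) (h' : HasW g p' q' z) :
    HasW (fun z => f z - g z) (p - p') (q - q') z := by
  refine (HasFDerivAt.sub h h').congr_fderiv ?_
  ext v; simp; ring

lemma HasW.mul (h : HasW f p q z) (h' : HasW g p' q' z) :
    HasW (fun z => f z * g z) (p * g z + f z * p') (q * g z + f z * q') z := by
  refine (HasFDerivAt.mul h h').congr_fderiv ?_
  ext v; simp; ring

lemma HasW.const_mul (h : HasW f p q z) (c : ℂ) : HasW (fun z => c * f z) (c * p) (c * q) z := by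
  refine (HasFDerivAt.const_mul h c).congr_fderiv ?_
  ext v; simp; ring

lemma HasW.of_hol {T : ℂ → ℂ} {T' : ℂ} (h : HasDerivAt T T' z) : HasW T T' 0 z := by
  refine (h.hasFDerivAt.restrictScalars ℝ).congr_fderiv ?_
  ext v; simp; ring

lemma HasW.hasDerivAt (h : HasW f p 0 z) : HasDerivAt f p z := by
  rw [hasDerivAt_iff_hasFDerivAt]
  refine hasFDerivAt_of_restrictScalars ℝ h ?_
  ext v; simp; ring

lemma HasW.comp_hol {T : ℂ → ℂ} {T' : ℂ} (h : HasW f p q z) (hT : HasDerivAt T T' (f z)) :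
    HasW (fun z => T (f z)) (T' * p) (T' * q) z := by
  refine (HasFDerivAt.comp z (HasW.of_hol hT) h).congr_fderiv ?_
  ext v; simp; ring

lemma hasW_re (z : ℂ) : HasW (fun z => (z.re : ℂ)) (1 / 2) (1 / 2) z := by
  refine ((ofRealCLM.comp reCLM).hasFDerivAt (x := z)).congr_fderiv ?_
  ext v; simp [Complex.re_eq_add_conj]; ring

lemma hasW_im (z : ℂ) : HasW (fun z => I * (z.im : ℂ)) (1 / 2) (-1 / 2) z := by
  refine (((ofRealCLM.comp imCLM).hasFDerivAt (x := z)).const_mul I).congr_fderiv ?_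
  ext v; simp [Complex.im_eq_sub_conj]; field_simp; ring

lemma HasW.of_re {φ : ℂ → ℂ} {φ' : ℂ} (h : HasDerivAt φ φ' (z.re : ℂ)) :
    HasW (fun z => φ (z.re : ℂ)) (φ' / 2) (φ' / 2) z :=
  ((hasW_re z).comp_hol h).congr (by ring) (by ring)

lemma HasW.of_im {φ : ℂ → ℂ} {φ' : ℂ} (h : HasDerivAt φ φ' (I * (z.im : ℂ))) :
    HasW (fun z => φ (I * (z.im : ℂ))) (φ' / 2) (-φ' / 2) z :=
  ((hasW_im z).comp_hol h).congr (by ring) (by ring)

lemma HasW.of_conj (h : HasW f p q (conj z)) : HasW (fun z => f (conj z)) q p z := by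
  refine (HasFDerivAt.comp z h (conjCLE : ℂ →L[ℝ] ℂ).hasFDerivAt).congr_fderiv ?_
  ext v; simp; ring

lemma wd_shift (hf : Differentiable ℝ f) {γ χ : ℂ} (h : ∀ z, f (z + γ) = χ * f z) (z : ℂ) :
    wd f (z + γ) = χ * wd f z := by
  have h1 : HasW (fun z => f (z + γ)) (wd f (z + γ)) (wb f (z + γ)) z :=
    (hasFDerivAt_comp_add_right γ).2 (hasW_of_differentiableAt (hf (z + γ)))
  have h2 := (hasW_of_differentiableAt (hf z)).const_mul χ
  rw [show (fun z => f (z + γ)) = fun z => χ * f z from funext h] at h1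
  exact (h1.unique h2).1

lemma contDiff_wd {n m : WithTop ℕ∞} (hf : ContDiff ℝ n f) (hmn : m + 1 ≤ n) :
    ContDiff ℝ m (wd f) := by
  have := hf.fderiv_right hmn
  unfold wd
  fun_prop

lemma wb_wd (hf : ContDiff ℝ 2 f) (z : ℂ) : wb (wd f) z = Δ f z / 4 := by
  have hd : DifferentiableAt ℝ (fderiv ℝ f) z :=
    (hf.fderiv_right (m := 1) (by norm_num)).differentiable (by norm_num) z
  have hs : IsSymmSndFDerivAt ℝ f z := hf.contDiffAt.isSymmSndFDerivAt (by simp)
  set B := fderiv ℝ (fderiv ℝ f) z with hB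
  have h1 : ∀ v : ℂ, HasFDerivAt (fun w => fderiv ℝ f w v) (B.flip v) z := by
    intro v
    refine (hd.hasFDerivAt.clm_apply (hasFDerivAt_const v z)).congr_fderiv ?_
    ext w; simp [hB]
  have h2 : HasFDerivAt (wd f) ((1 / 2 : ℂ) • (B.flip 1 - I • B.flip I)) z := by
    have := ((h1 1).sub ((h1 I).const_mul I)).const_mul (1 / 2 : ℂ)
    refine this.congr_of_eventuallyEq (Eventually.of_forall fun w => ?_)
    simp only [wd, Pi.sub_apply]; ring
  rw [InnerProductSpace.laplacian_eq_iteratedFDeriv_complexPlane]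
  simp only [iteratedFDeriv_two_apply, Matrix.cons_val_zero, Matrix.cons_val_one]
  unfold wb
  rw [h2.fderiv]
  have h3 : B I 1 = B 1 I := hs I 1
  simp only [smul_apply, sub_apply,
    ContinuousLinearMap.flip_apply, smul_eq_mul, ← hB, h3]
  linear_combination (-(B I I) / 4) * I_sq

/-- If `g` has Wirtinger derivatives `P, Q` and `d Q / dz + d R / d conj z = 0` then `P + R` is
entire. -/
lemma entire_of_closed {g P Q R r s t : ℂ → ℂ} (hg : ∀ z, HasW g (P z) (Q z) z)
    (hQ : ∀ z, HasW Q (r z) (s z) z) (hR : ∀ z, HasW R (t z) (-r z) z) :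
    Differentiable ℂ (fun z => P z + R z) := by
  have hω : ∀ z, HasFDerivAt (fun z => lin (R z) (-Q z))
      ((lin (t z) (-r z)).smulRight (ContinuousLinearMap.id ℝ ℂ)
        + (-lin (r z) (s z)).smulRight (conjCLE : ℂ →L[ℝ] ℂ)) z :=
    fun z => (HasFDerivAt.smul_const (hR z) (ContinuousLinearMap.id ℝ ℂ)).add
      (HasFDerivAt.smul_const (HasFDerivAt.neg (hQ z)) (conjCLE : ℂ →L[ℝ] ℂ))
  obtain ⟨S, hS⟩ := convex_univ.exists_forall_hasFDerivAt_of_fderiv_symmetric isOpen_univ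
    (ω := fun z => lin (R z) (-Q z)) (fun z _ => (hω z).differentiableAt.differentiableWithinAt)
    (fun z _ x y => by
      rw [(hω z).fderiv]
      simp
      ring)
  have hF : ∀ z, HasDerivAt (fun z => g z + S z) (P z + R z) z := fun z =>
    (((hg z).add (hS z (Set.mem_univ z))).congr rfl (by ring)).hasDerivAt
  have hd : Differentiable ℂ (fun z => g z + S z) := fun z => (hF z).differentiableAt
  have : (fun z => P z + R z) = deriv (fun z => g z + S z) := funext fun z => (hF z).deriv.symm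
  rw [this]
  exact hd.deriv

lemma hasDerivAt_mul_continuousAt {T c : ℂ → ℂ} {T' : ℂ} (hT : HasDerivAt T T' 0) (h0 : T 0 = 0)
    (hc : ContinuousAt c 0) : HasDerivAt (fun z => T z * c z) (T' * c 0) 0 := by
  rw [hasDerivAt_iff_tendsto_slope_zero] at hT ⊢
  have := hT.mul (hc.tendsto.mono_left nhdsWithin_le_nhds)
  refine this.congr fun t => ?_
  simp [h0]; ring

end

end Pool.Agent.P.MP_a11f68_mp
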