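import Pool.Agent.P.MP_a11f68_mp.Ident
import Pool.Agent.P.MP_a11f68_mp.Wirt

/-!
The Laplace cascade: a nonzero Bloch solution of `Δ u = 2 G u` forces the quasimomentum onto one of
two explicit curves.
-/

namespace Pool.Agent.P.MP_a11f68_mp

open Complex Real ComplexConjugate Laplacian Filter Topology

noncomputable section

/-- Half of the potential. -/
def GG (z : ℂ) : ℂ := PP z.re - PP (I * z.im)

def rho (z : ℂ) : ℂ := th z.re * th (I * z.im)

def LL (z : ℂ) : ℂ := (ZZ z.re + ZZ (I * z.im)) / 2

def LB (z : ℂ) : ℂ := (ZZ z.re - ZZ (I * z.im)) / 2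

def dG (z : ℂ) : ℂ := (deriv PP z.re - deriv PP (I * z.im)) / 2

def bG (z : ℂ) : ℂ := (deriv PP z.re + deriv PP (I * z.im)) / 2

lemma rho_ne (z : ℂ) : rho z ≠ 0 := mul_ne_zero (th_real_ne _) (th_imag_ne _)

lemma hasW_rho (z : ℂ) : HasW rho (LL z * rho z) (LB z * rho z) z := by
  have := (HasW.of_re (z := z) (th_diff _).hasDerivAt).mul (HasW.of_im (th_diff _).hasDerivAt)
  have h1 := th_real_ne z.re
  have h2 := th_imag_ne z.im
  refine this.congr ?_ ?_
  · unfold LL rho ZZ; field_simp
  · unfold LB rho ZZ; field_simp; ring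

lemma hasW_GG (z : ℂ) : HasW GG (dG z) (bG z) z := by
  have := (HasW.of_re (z := z) (PP_differentiableAt (th_real_ne _)).hasDerivAt).sub
    (HasW.of_im (PP_differentiableAt (th_imag_ne _)).hasDerivAt)
  exact this.congr (by unfold dG; ring) (by unfold bG; ring)

lemma hasW_LL (z : ℂ) : HasW LL (-(PP z.re + PP (I * z.im)) / 4) (-GG z / 4) z := by
  have := ((HasW.of_re (z := z) (hasDerivAt_ZZ (th_real_ne _))).add
    (HasW.of_im (hasDerivAt_ZZ (th_imag_ne _)))).const_mul (1 / 2)
  refine (this.congr (by ring) (by unfold GG; ring)).congr_ev (Eventually.of_forall fun w => ?_)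
  unfold LL; ring

lemma hasW_LB (z : ℂ) : HasW LB (-GG z / 4) (-(PP z.re + PP (I * z.im)) / 4) z := by
  have := ((HasW.of_re (z := z) (hasDerivAt_ZZ (th_real_ne _))).sub
    (HasW.of_im (hasDerivAt_ZZ (th_imag_ne _)))).const_mul (1 / 2)
  refine (this.congr (by unfold GG; ring) (by ring)).congr_ev (Eventually.of_forall fun w => ?_)
  unfold LB; ring

lemma continuous_rho : Continuous rho :=
  continuous_iff_continuousAt.2 fun z => (hasW_rho z).continuousAt

lemma continuous_LL : Continuous LL :=
  continuous_iff_continuousAt.2 fun z => (hasW_LL z).continuousAt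

lemma continuous_LB : Continuous LB :=
  continuous_iff_continuousAt.2 fun z => (hasW_LB z).continuousAt

lemma GG_factor (z : ℂ) : GG z * rho z ^ 2 = CF * (vt z * vt (conj z)) := by
  have := PP_sub (th_real_ne z.re) (th_imag_ne z.im)
  have h1 : (z.re : ℂ) + I * z.im = z := by rw [mul_comm]; exact re_add_im z
  have h2 : (z.re : ℂ) - I * z.im = conj z := by
    apply Complex.ext <;> simp
  rw [h1, h2] at this
  exact this

lemma dG_eq (z : ℂ) : vt z * dG z + 2 * LL z * vt z * GG z = deriv vt z * GG z := by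
  have h1 := (hasW_GG z).mul ((hasW_rho z).mul (hasW_rho z))
  have h2 := ((HasW.of_hol (vt_diff z).hasDerivAt).mul
    (HasW.of_hol (vt_diff (conj z)).hasDerivAt).of_conj).const_mul CF
  have h3 : (fun z => GG z * (rho z * rho z)) = fun z => CF * (vt z * vt (conj z)) := by
    ext w; rw [← GG_factor]; ring
  rw [h3] at h1
  have h4 := (h1.unique h2).1
  have h5 := GG_factor z
  apply mul_right_cancel₀ (pow_ne_zero 2 (rho_ne z))
  linear_combination vt z * h4 - deriv vt z * h5

lemma GG_zero : GG 0 = 0 := by simp [GG]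

lemma LL_zero : LL 0 = 0 := by simp [LL, ZZ, deriv_th_zero]

lemma LB_zero : LB 0 = 0 := by simp [LB]

lemma LL_add_one (z : ℂ) : LL (z + 1) = LL z := by
  unfold LL; simp [ZZ_add_one]

lemma LL_add_I (z : ℂ) : LL (z + I) = LL z - π * I := by
  unfold LL
  simp only [add_re, I_re, add_zero, add_im, I_im, ofReal_add, ofReal_one, mul_add, mul_one]
  rw [ZZ_add_I (th_imag_ne _)]; ring

lemma rho_add_one (z : ℂ) : rho (z + 1) = rho z := by
  unfold rho; simp [th_theta.one]

lemma rho_sub_I (z : ℂ) : rho z = cexp π * cexp (-(2 * π * I) * (I * (z.im - 1))) * rho (z - I) := by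
  unfold rho
  simp only [sub_re, I_re, sub_zero, sub_im, I_im, ofReal_sub, ofReal_one]
  have := th_theta.imag' (I * (z.im - 1))
  rw [show I * ((z.im : ℂ) - 1) + I = I * z.im by ring] at this
  rw [this]; ring

lemma eventually_vt_conj_ne (z : ℂ) : ∀ᶠ w in 𝓝[≠] z, vt (conj w) ≠ 0 := by
  by_cases h : vt (conj z) = 0
  · have h1 : ∀ᶠ w in 𝓝[≠] (conj z), vt w ≠ 0 :=
      (vt_diff (conj z)).hasDerivAt.eventually_ne (vt_simple h)
    have h2 : Tendsto (fun w : ℂ => conj w) (𝓝[≠] z) (𝓝[≠] (conj z)) := by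
      apply tendsto_nhdsWithin_of_tendsto_nhds_of_eventually_within
      · exact (continuous_conj.tendsto z).mono_left nhdsWithin_le_nhds
      · filter_upwards [self_mem_nhdsWithin] with w hw
        intro hc
        exact hw (star_injective hc)
    exact h2.eventually h1
  · have : ContinuousAt (fun w => vt (conj w)) z :=
      (vt_diff.continuous.comp continuous_conj).continuousAt
    exact (this.eventually_ne h).filter_mono nhdsWithin_le_nhds

lemma eq_zero_of_vt_conj {F : ℂ → ℂ} (hF : Continuous F) (h : ∀ z, vt (conj z) ≠ 0 → F z = 0)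
    (z : ℂ) : F z = 0 := by
  have h1 : Tendsto F (𝓝[≠] z) (𝓝 (F z)) := (hF.tendsto z).mono_left nhdsWithin_le_nhds
  have h2 : Tendsto F (𝓝[≠] z) (𝓝 0) :=
    tendsto_const_nhds.congr' ((eventually_vt_conj_ne z).mono fun w hw => (h w hw).symm)
  exact tendsto_nhds_unique h1 h2

section

variable {u : ℂ → ℂ} (hu : ContDiff ℝ 2 u) (heq : ∀ z, Δ u z = 2 * GG z * u z)

/-- The first function of the cascade. -/
def hh (u : ℂ → ℂ) (z : ℂ) : ℂ :=
  vt z * (wd (wd u) z + 2 * LL z * wd u z) - deriv vt z * wd u z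

include hu in
lemma hasW_u (z : ℂ) : HasW u (wd u z) (wb u z) z :=
  hasW_of_differentiableAt (hu.differentiable (by norm_num) z)

include hu in
lemma diff_wd : Differentiable ℝ (wd u) :=
  (contDiff_wd (m := 1) hu (by norm_num)).differentiable (by norm_num)

include hu in
lemma cont_wd_wd : Continuous (wd (wd u)) :=
  (contDiff_wd (m := 0) (contDiff_wd (m := 1) hu (by norm_num)) (by norm_num)).continuous

include hu heq in
lemma hasW_wd (z : ℂ) : HasW (wd u) (wd (wd u) z) (GG z * u z / 2) z :=
  (hasW_of_differentiableAt (diff_wd hu z)).congr rfl (by rw [wb_wd hu, heq]; ring)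

include hu heq in
lemma hh_diff : Differentiable ℂ (hh u) := by
  have hvt : ∀ z, HasW vt (deriv vt z) 0 z := fun z => HasW.of_hol (vt_diff z).hasDerivAt
  have hvt' : ∀ z, HasW (deriv vt) (deriv (deriv vt) z) 0 z :=
    fun z => HasW.of_hol (vt_diff.deriv z).hasDerivAt
  have := entire_of_closed (g := fun z => vt z * wd u z)
    (P := fun z => deriv vt z * wd u z + vt z * wd (wd u) z)
    (Q := fun z => (1 / 2) * (vt z * (GG z * u z)))
    (R := fun z => 2 * (vt z * (LL z * wd u z)) - 2 * (deriv vt z * wd u z))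
    (r := fun z => (1 / 2) * (deriv vt z * (GG z * u z) + vt z * (dG z * u z + GG z * wd u z)))
    (fun z => ((hvt z).mul (hasW_wd hu heq z)).congr rfl (by ring))
    (fun z => (((hvt z).mul ((hasW_GG z).mul (hasW_u hu z))).const_mul (1 / 2)).congr rfl rfl)
    (fun z => ((((hvt z).mul ((hasW_LL z).mul (hasW_wd hu heq z))).const_mul 2).sub
      (((hvt' z).mul (hasW_wd hu heq z)).const_mul 2)).congr rfl (by
        linear_combination (u z / 2) * dG_eq z))
  convert this using 1
  ext z; unfold hh; ring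

include hu heq in
lemma hh_deriv_zero : deriv (hh u) 0 = 0 := by
  have h1 : HasDerivAt (fun z => vt z * (wd (wd u) z + 2 * LL z * wd u z))
      (deriv vt 0 * (wd (wd u) 0 + 2 * LL 0 * wd u 0)) 0 := by
    apply hasDerivAt_mul_continuousAt (c := fun z => wd (wd u) z + 2 * LL z * wd u z)
      (vt_diff 0).hasDerivAt vt_zero
    have := cont_wd_wd hu
    have := (diff_wd hu).continuous
    have := continuous_LL
    fun_prop
  have h2 : HasDerivAt (fun z => deriv vt z * wd u z) (deriv vt 0 * wd (wd u) 0) 0 :=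
    (((HasW.of_hol (vt_diff.deriv 0).hasDerivAt).mul (hasW_wd hu heq 0)).congr
      (by rw [deriv2_vt_zero]; ring) (by rw [GG_zero]; ring)).hasDerivAt
  have h3 : HasDerivAt (hh u) _ 0 := h1.sub h2
  rw [h3.deriv, LL_zero]; ring

variable {χ₁ χ₂ : ℂ} (h1 : ∀ z, u (z + 1) = χ₁ * u z) (h2 : ∀ z, u (z + I) = χ₂ * u z)

include hu heq h1 h2 in
lemma hh_theta : IsTheta 1 (χ₁ * -1) (χ₂ * -cexp π) (hh u) where
  diff := hh_diff hu heq
  one z := by
    have a1 := wd_shift (hu.differentiable (by norm_num)) h1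
    have a2 := wd_shift (diff_wd hu) a1
    unfold hh
    rw [a1, a2, LL_add_one, shift_deriv vt_diff vt_diff vt_theta.one', vt_theta.one]
    simp only [zero_mul, Complex.exp_zero]; ring
  imag z := by
    have a1 := wd_shift (hu.differentiable (by norm_num)) h2
    have a2 := wd_shift (diff_wd hu) a1
    unfold hh
    rw [a1, a2, LL_add_I, shift_deriv vt_diff vt_diff vt_theta.imag', vt_theta.imag']
    have : cexp (-(2 * π * I * ((1 : ℕ) : ℂ) * z)) = cexp (-(2 * π * I) * z) := by
      congr 1; push_cast; ring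
    rw [this]; ring

end

lemma theta_eq_zero {μ a : ℂ} {f : ℂ → ℂ}
    (hf : IsTheta 1 (cexp μ * -1) (cexp (μ * I + 2 * π * I * a) * -cexp π) f)
    (h0 : deriv f 0 = 0) (hne : deriv vt a ≠ μ * vt a) (z : ℂ) : f z = 0 := by
  obtain ⟨c, hc⟩ := IsTheta.dim_one (by simp) (by simp) hf (HH_theta μ a) (HH_ne μ a)
  have : deriv f 0 = c * deriv (HH μ a) 0 := by
    rw [show f = fun z => c * HH μ a z from funext hc]
    exact (((HH_theta μ a).diff 0).hasDerivAt.const_mul c).deriv
  rw [h0, deriv_HH_zero] at this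
  have hc0 : c = 0 := (mul_eq_zero.1 this.symm).resolve_right (sub_ne_zero.2 hne)
  rw [hc, hc0, zero_mul]

section

variable {u : ℂ → ℂ} (hu : ContDiff ℝ 2 u) (heq : ∀ z, Δ u z = 2 * GG z * u z)
  (hz : ∀ z, hh u z = 0)

def mm (u : ℂ → ℂ) (z : ℂ) : ℂ := rho z * rho z * wd u z

def mm1 (u : ℂ → ℂ) (z : ℂ) : ℂ := rho z * rho z * (wd (wd u) z + 2 * LL z * wd u z)

open Classical in
/-- The second function of the cascade. -/
def pt (u : ℂ → ℂ) (z : ℂ) : ℂ := if vt z = 0 then mm1 u z / deriv vt z else mm u z / vt z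

include hu heq in
lemma hasW_mm (z : ℂ) :
    HasW (mm u) (mm1 u z) (2 * LB z * mm u z + CF * (vt z * vt (conj z)) * u z / 2) z :=
  (((hasW_rho z).mul (hasW_rho z)).mul (hasW_wd hu heq z)).congr (by unfold mm1; ring)
    (by rw [← GG_factor]; unfold mm; ring)

include hz in
lemma mm_rel (z : ℂ) : vt z * mm1 u z = deriv vt z * mm u z := by
  have := hz z
  unfold hh at this
  unfold mm mm1
  linear_combination (rho z * rho z) * this

include hu heq hz in
lemma continuous_pt : Continuous (pt u) := by
  refine continuous_iff_continuousAt.2 fun z => ?_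
  by_cases h : vt z = 0
  · have h' := vt_simple h
    have hc : ContinuousAt (fun w => mm1 u w / deriv vt w) z := by
      apply ContinuousAt.div _ vt_diff.deriv.continuous.continuousAt h'
      have := cont_wd_wd hu
      have := (diff_wd hu).continuous
      have := continuous_LL
      have := continuous_rho
      unfold mm1
      fun_prop
    refine hc.congr ?_
    filter_upwards [vt_diff.deriv.continuous.continuousAt.eventually_ne h'] with w hw
    unfold pt
    split_ifs with h0
    · rfl
    · rw [div_eq_div_iff hw h0]; linear_combination mm_rel hz w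
  · have hc : ContinuousAt (fun w => mm u w / vt w) z :=
      (hasW_mm hu heq z).continuousAt.div vt_diff.continuous.continuousAt h
    refine hc.congr ?_
    filter_upwards [vt_diff.continuous.continuousAt.eventually_ne h] with w hw
    unfold pt
    rw [if_neg hw]

include hu heq hz in
lemma hasW_pt {z : ℂ} (h : vt z ≠ 0) :
    HasW (pt u) 0 (2 * LB z * pt u z + CF * vt (conj z) * u z / 2) z := by
  have hinv : HasW (fun w => (vt w)⁻¹) (-deriv vt z / vt z ^ 2) 0 z :=
    HasW.of_hol ((vt_diff z).hasDerivAt.inv h)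
  have := (hasW_mm hu heq z).mul hinv
  refine (this.congr ?_ ?_).congr_ev ?_
  · field_simp
    linear_combination mm_rel hz z
  · unfold pt; rw [if_neg h]; field_simp; ring
  · filter_upwards [vt_diff.continuous.continuousAt.eventually_ne h] with w hw
    unfold pt
    rw [if_neg hw, div_eq_mul_inv]

include hu heq hz in
lemma QQ_diff : Differentiable ℂ (fun z => pt u (conj z)) := by
  intro z
  refine (analyticAt_of_differentiable_on_punctured_nhds_of_continuousAt ?_
    ((continuous_pt hu heq hz).comp continuous_conj).continuousAt).differentiableAt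
  filter_upwards [eventually_vt_conj_ne z] with w hw
  exact (hasW_pt hu heq hz hw).of_conj.hasDerivAt.differentiableAt

include hu heq hz in
lemma QQ_deriv (z : ℂ) : deriv (fun z => pt u (conj z)) z
    = 2 * LB (conj z) * pt u (conj z) + CF * vt z * u (conj z) / 2 := by
  rw [← sub_eq_zero]
  refine eq_zero_of_vt_conj (F := fun z => deriv (fun z => pt u (conj z)) z
    - (2 * LB (conj z) * pt u (conj z) + CF * vt z * u (conj z) / 2)) ?_ (fun w hw => ?_) z
  · have := (QQ_diff hu heq hz).deriv.continuous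
    have := continuous_pt hu heq hz
    have := continuous_LB
    have := vt_diff.continuous
    have := hu.continuous
    fun_prop
  · rw [(hasW_pt hu heq hz hw).of_conj.hasDerivAt.deriv]
    simp

variable {χ₁ χ₂ : ℂ} (h1 : ∀ z, u (z + 1) = χ₁ * u z) (h2 : ∀ z, u (z + I) = χ₂ * u z)

include hu heq hz h1 h2 in
lemma QQ_theta (hχ : χ₂ ≠ 0) :
    IsTheta 1 (χ₁ * -1) (χ₂⁻¹ * -cexp π) (fun z => pt u (conj z)) where
  diff := QQ_diff hu heq hz
  one z := by
    have a1 := wd_shift (hu.differentiable (by norm_num)) h1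
    rw [← sub_eq_zero]
    refine eq_zero_of_vt_conj (F := fun z => pt u (conj (z + 1)) - χ₁ * -1 * pt u (conj z)) ?_
      (fun w hw => ?_) z
    · have := continuous_pt hu heq hz
      fun_prop
    · have hw' : vt (conj w + 1) ≠ 0 := by rw [vt_theta.one]; simpa using hw
      simp only [map_add, map_one]
      unfold pt mm
      rw [if_neg hw, if_neg hw', a1, rho_add_one, vt_theta.one]
      field_simp; ring
  imag z := by
    have a1 := wd_shift (hu.differentiable (by norm_num)) h2
    rw [← sub_eq_zero]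
    refine eq_zero_of_vt_conj (F := fun z => pt u (conj (z + I))
      - χ₂⁻¹ * -cexp π * cexp (-(2 * π * I * ((1 : ℕ) : ℂ) * z)) * pt u (conj z)) ?_
      (fun w hw => ?_) z
    · have := continuous_pt hu heq hz
      fun_prop
    · have e1 := vt_theta.imag' (conj w - I)
      have e2 := a1 (conj w - I)
      have e3 := rho_sub_I (conj w)
      rw [sub_add_cancel] at e1 e2
      have hw' : vt (conj w - I) ≠ 0 := by
        intro h0; rw [h0, mul_zero] at e1; exact hw e1
      have e4 : cexp (-(2 * π * I) * (conj w - I))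
          = cexp π * cexp π * cexp (-(2 * π * I * ((1 : ℕ) : ℂ) * w))
            * cexp (-(2 * π * I) * (I * ((conj w).im - 1)))
            * cexp (-(2 * π * I) * (I * ((conj w).im - 1))) := by
        rw [← Complex.exp_add, ← Complex.exp_add, ← Complex.exp_add, ← Complex.exp_add]
        congr 1
        have : conj w = w - 2 * I * w.im := by apply Complex.ext <;> simp; ring
        simp only [conj_im, ofReal_neg, Nat.cast_one]
        rw [this]
        linear_combination (-2 * π : ℂ) * I_sq
      simp only [map_add, conj_I, ← sub_eq_add_neg]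
      unfold pt mm
      rw [if_neg hw, if_neg hw', e1, e2, e3, e4]
      have := Complex.exp_ne_zero (π : ℂ)
      have := Complex.exp_ne_zero (-(2 * π * I * ((1 : ℕ) : ℂ) * w))
      have := Complex.exp_ne_zero (-(2 * π * I) * (I * ((conj w).im - 1)))
      field_simp; ring

end

/-- The entire function cutting out the first component. -/
def Phi (k₁ k₂ : ℂ) : ℂ := deriv vt (k₂ - I * k₁) - 2 * π * I * k₁ * vt (k₂ - I * k₁)

theorem mem_curves {u : ℂ → ℂ} (hu : ContDiff ℝ 2 u) (heq : ∀ z, Δ u z = 2 * GG z * u z)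
    {k₁ k₂ : ℂ} (h1 : ∀ z, u (z + 1) = cexp (2 * π * I * k₁) * u z)
    (h2 : ∀ z, u (z + I) = cexp (2 * π * I * k₂) * u z) (hne : u ≠ 0) :
    Phi k₁ k₂ = 0 ∨ Phi k₁ (-k₂) = 0 := by
  by_contra hcon
  push Not at hcon
  obtain ⟨hA, hB⟩ := hcon
  have hz : ∀ z, hh u z = 0 := by
    have ht := hh_theta hu heq h1 h2
    rw [show 2 * π * I * k₂ = 2 * π * I * k₁ * I + 2 * π * I * (k₂ - I * k₁) by ring] at ht
    exact theta_eq_zero ht (hh_deriv_zero hu heq) (sub_ne_zero.1 hA)
  have hQ : ∀ z, pt u (conj z) = 0 := by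
    have ht := QQ_theta hu heq hz h1 h2 (Complex.exp_ne_zero _)
    rw [← Complex.exp_neg,
      show -(2 * π * I * k₂) = 2 * π * I * k₁ * I + 2 * π * I * (-k₂ - I * k₁) by ring] at ht
    refine theta_eq_zero ht ?_ (sub_ne_zero.1 hB)
    rw [QQ_deriv hu heq hz, map_zero, LB_zero, vt_zero]; ring
  apply hne
  ext z
  refine eq_zero_of_vt_conj hu.continuous (fun w hw => ?_) z
  have h3 := QQ_deriv hu heq hz (conj w)
  rw [show (fun z => pt u (conj z)) = fun _ => 0 from funext hQ, hQ, deriv_const, conj_conj] at h3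
  have h4 : CF * vt (conj w) * u w = 0 := by linear_combination -2 * h3
  exact (mul_eq_zero.1 h4).resolve_left (mul_ne_zero CF_ne hw)

end

end Pool.Agent.P.MP_a11f68_mp
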