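import Mathlib

namespace Pool.Agent.P.MP_a11f68_mp

open Complex Real Laplacian

noncomputable section

/-- The point `n ∈ ℤ²` of the plane. -/
def latticePoint (n : Fin 2 → ℤ) : EuclideanSpace ℝ (Fin 2) := WithLp.toLp 2 fun i => (n i : ℝ)

/-- The average of a periodic potential: its integral over the unit square. -/
def average (V : EuclideanSpace ℝ (Fin 2) → ℂ) : ℂ :=
  ∫ x in {x : EuclideanSpace ℝ (Fin 2) | ∀ i, x i ∈ Set.Icc (0 : ℝ) 1}, V x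

/-- The Fermi variety of `-Δ + V` at energy `lam`. -/
def fermiVariety (V : EuclideanSpace ℝ (Fin 2) → ℂ) (lam : ℂ) : Set (Fin 2 → ℂ) :=
  {k | ∃ u : EuclideanSpace ℝ (Fin 2) → ℂ, ContDiff ℝ 2 u ∧ u ≠ 0 ∧
    (∀ x, -Δ u x + V x * u x = lam * u x) ∧
    ∀ (n : Fin 2 → ℤ) (x : EuclideanSpace ℝ (Fin 2)),
      u (x + latticePoint n) = cexp (2 * π * I * ∑ i, k i * n i) * u x}

/-- Analytic subsets of `ℂ²`: locally the common zero set of finitely many holomorphic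
functions. -/
def IsAnalyticSubset (A : Set (Fin 2 → ℂ)) : Prop :=
  ∀ p : Fin 2 → ℂ, ∃ U : Set (Fin 2 → ℂ), IsOpen U ∧ p ∈ U ∧
    ∃ (m : ℕ) (f : Fin m → (Fin 2 → ℂ) → ℂ), (∀ j, AnalyticOnNhd ℂ (f j) U) ∧
      ∀ k ∈ U, k ∈ A ↔ ∀ j, f j k = 0

/-- Invariance under the translations by `ℤ²`. -/
def IsLatticeInvariant (A : Set (Fin 2 → ℂ)) : Prop :=
  ∀ k ∈ A, ∀ n : Fin 2 → ℤ, (fun i => k i + n i) ∈ A

/-- `F` is not the union of two proper `ℤ²`-invariant analytic subsets. -/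
def IrreducibleModPeriodicity (F : Set (Fin 2 → ℂ)) : Prop :=
  ¬ ∃ A B : Set (Fin 2 → ℂ), IsAnalyticSubset A ∧ IsAnalyticSubset B ∧
    IsLatticeInvariant A ∧ IsLatticeInvariant B ∧ A ⊂ F ∧ B ⊂ F ∧ A ∪ B = F

end

end Pool.Agent.P.MP_a11f68_mp
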