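import Pool.Agent.P.MP_a11f68_mp.Cascade

/-!
Product Bloch solutions on both curves; invariance and properness of the curves; the potential.
-/

namespace Pool.Agent.P.MP_a11f68_mp

open Complex Real ComplexConjugate Laplacian Filter Topology
open scoped ContDiff

noncomputable section

lemma contDiff_of_re {φ : ℂ → ℂ} (h : ∀ x : ℝ, AnalyticAt ℂ φ x) :
    ContDiff ℝ ω (fun z : ℂ => φ (z.re : ℂ)) := by
  refine contDiff_iff_contDiffAt.2 fun z => ?_
  have h1 : ContDiffAt ℝ ω φ (z.re : ℂ) := (h z.re).contDiffAt.restrict_scalars ℝ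
  exact ContDiffAt.comp (g := φ) (f := fun z : ℂ => (z.re : ℂ)) z h1
    (ofRealCLM.comp reCLM).contDiff.contDiffAt

lemma contDiff_of_im {φ : ℂ → ℂ} (h : ∀ y : ℝ, AnalyticAt ℂ φ (I * y)) :
    ContDiff ℝ ω (fun z : ℂ => φ (I * (z.im : ℂ))) := by
  refine contDiff_iff_contDiffAt.2 fun z => ?_
  have h1 : ContDiffAt ℝ ω φ (I * (z.im : ℂ)) := (h z.im).contDiffAt.restrict_scalars ℝ
  exact ContDiffAt.comp (g := φ) (f := fun z : ℂ => I * (z.im : ℂ)) z h1
    (contDiffAt_const.mul (ofRealCLM.comp imCLM).contDiff.contDiffAt)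

lemma PP_analyticAt {a : ℂ} (ha : th a ≠ 0) : AnalyticAt ℂ PP a :=
  (WW_diff.analyticAt a).div ((th_diff.analyticAt a).pow 2) (pow_ne_zero 2 ha)

lemma contDiff_GG : ContDiff ℝ ω GG :=
  (contDiff_of_re fun x => PP_analyticAt (th_real_ne x)).sub
    (contDiff_of_im fun y => PP_analyticAt (th_imag_ne y))

lemma GG_add_one (z : ℂ) : GG (z + 1) = GG z := by
  unfold GG; simp [PP_add_one]

lemma GG_add_I (z : ℂ) : GG (z + I) = GG z := by
  unfold GG
  simp only [add_re, I_re, add_zero, add_im, I_im, ofReal_add, ofReal_one, mul_add, mul_one]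
  rw [PP_add_I]

lemma GG_real (z : ℂ) : ((GG z).re : ℂ) = GG z := by
  apply conj_eq_iff_re.1
  unfold GG
  rw [map_sub, ← PP_conj, ← PP_conj, conj_ofReal, map_mul, conj_ofReal, conj_I, neg_mul, PP_neg]

lemma integral_GG : ∫ x : ℝ in (0 : ℝ)..1, ∫ y : ℝ in (0 : ℝ)..1, GG (x + y * I) = -(2 * π) := by
  have h : ∀ x : ℝ, ∫ y : ℝ in (0 : ℝ)..1, GG (x + y * I) = PP x - 2 * π := by
    intro x
    have : ∀ y : ℝ, GG (x + y * I) = PP x - PP (I * y) := by intro y; simp [GG]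
    simp only [this]
    rw [intervalIntegral.integral_sub (by simp) (continuous_PP_im.intervalIntegrable _ _),
      integral_PP_im]
    simp
  simp only [h]
  rw [intervalIntegral.integral_sub (continuous_PP_re.intervalIntegrable _ _) (by simp),
    integral_PP_re]
  simp

/-- `ψ` solves the Lame equation `ψ'' = (2 P + E) ψ` away from the zeros of `th`. -/
structure IsLame (E : ℂ) (ψ ψ' : ℂ → ℂ) : Prop where
  an : ∀ s, th s ≠ 0 → AnalyticAt ℂ ψ s
  d1 : ∀ s, th s ≠ 0 → HasDerivAt ψ (ψ' s) s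
  d2 : ∀ s, th s ≠ 0 → HasDerivAt ψ' ((2 * PP s + E) * ψ s) s

lemma IsLame.neg {E : ℂ} {ψ ψ' : ℂ → ℂ} (h : IsLame E ψ ψ') :
    IsLame E (fun s => ψ (-s)) (fun s => -ψ' (-s)) where
  an s hs := AnalyticAt.comp (g := ψ) (f := fun s => -s) (h.an (-s) (by rwa [th_neg]))
    analyticAt_id.neg
  d1 s hs := ((h.d1 (-s) (by rwa [th_neg])).comp s (hasDerivAt_neg s)).congr_deriv (by ring)
  d2 s hs := ((h.d2 (-s) (by rwa [th_neg])).comp s (hasDerivAt_neg s)).neg.congr_deriv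
    (by rw [PP_neg]; ring)

lemma product_solution {E : ℂ} {ψ ψ' χ χ' : ℂ → ℂ} (hψ : IsLame E ψ ψ') (hχ : IsLame E χ χ') :
    ContDiff ℝ ω (fun z : ℂ => ψ z.re * χ (I * z.im)) ∧
      ∀ z, Δ (fun z : ℂ => ψ z.re * χ (I * z.im)) z = 2 * GG z * (ψ z.re * χ (I * z.im)) := by
  have hc : ContDiff ℝ ω (fun z : ℂ => ψ z.re * χ (I * z.im)) :=
    (contDiff_of_re fun x => hψ.an _ (th_real_ne x)).mul
      (contDiff_of_im fun y => hχ.an _ (th_imag_ne y))
  refine ⟨hc, fun z => ?_⟩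
  have h1 : wd (fun z : ℂ => ψ z.re * χ (I * z.im))
      = fun z : ℂ => (1 / 2) * (ψ' z.re * χ (I * z.im) + ψ z.re * χ' (I * z.im)) := by
    ext w
    rw [((HasW.of_re (hψ.d1 _ (th_real_ne _))).mul (HasW.of_im (hχ.d1 _ (th_imag_ne _)))).wd_eq]
    ring
  have h2 := wb_wd (hc.of_le (m := 2) le_top) z
  rw [h1, ((((HasW.of_re (hψ.d2 _ (th_real_ne _))).mul (HasW.of_im (hχ.d1 _ (th_imag_ne _)))).add
    ((HasW.of_re (hψ.d1 _ (th_real_ne _))).mul
      (HasW.of_im (hχ.d2 _ (th_imag_ne _))))).const_mul (1 / 2)).wb_eq] at h2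
  unfold GG
  linear_combination -4 * h2

lemma vt_sub_cc {s : ℂ} (hs : th s ≠ 0) : vt (s - cc) ≠ 0 := by
  intro h
  have := th_shift (s - cc)
  rw [sub_add_cancel, h, mul_zero] at this
  exact hs this

lemma PP_eq_vt {s : ℂ} (hs : th s ≠ 0) : PP s
    = (deriv vt (s - cc) ^ 2 - vt (s - cc) * deriv (deriv vt) (s - cc)) / vt (s - cc) ^ 2 := by
  have h0 := th_shift (s - cc)
  have h1 := shift_deriv th_diff vt_diff th_shift (s - cc)
  have h2 := shift_deriv2 th_diff vt_diff th_shift (s - cc)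
  rw [sub_add_cancel] at h0 h1 h2
  unfold PP WW
  rw [h0, h1, h2]
  have := vt_sub_cc hs
  have := Complex.exp_ne_zero (-(π * I) * (s - cc))
  field_simp
  ring

/-- The Hermite solution of the Lame equation. -/
def psi (μ a s : ℂ) : ℂ := HH μ a (s - cc) / vt (s - cc)

def psi' (μ a s : ℂ) : ℂ :=
  (deriv (HH μ a) (s - cc) * vt (s - cc) - HH μ a (s - cc) * deriv vt (s - cc)) / vt (s - cc) ^ 2

lemma psi_lame {μ a : ℂ} (h : deriv vt a = μ * vt a) : ∃ E, IsLame E (psi μ a) (psi' μ a) := by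
  obtain ⟨E, hE⟩ := lame h
  have hH := (HH_theta μ a).diff
  have sh : ∀ {f : ℂ → ℂ}, Differentiable ℂ f → ∀ s,
      HasDerivAt (fun s => f (s - cc)) (deriv f (s - cc)) s :=
    fun hf s => (hf (s - cc)).hasDerivAt.comp_sub_const s cc
  refine ⟨E, fun s hs => ?_, fun s hs => ?_, fun s hs => ?_⟩
  · have h1 : Differentiable ℂ (fun s => HH μ a (s - cc)) := fun s => (sh hH s).differentiableAt
    have h2 : Differentiable ℂ (fun s => vt (s - cc)) := fun s => (sh vt_diff s).differentiableAt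
    exact (h1.analyticAt s).div (h2.analyticAt s) (vt_sub_cc hs)
  · exact (sh hH s).div (sh vt_diff s) (vt_sub_cc hs)
  · have hv := vt_sub_cc hs
    have := (((sh hH.deriv s).mul (sh vt_diff s)).sub ((sh hH s).mul (sh vt_diff.deriv s))).div
      ((sh vt_diff s).pow 2) (pow_ne_zero 2 hv)
    refine this.congr_deriv ?_
    have h3 := hE (s - cc)
    unfold hir at h3
    rw [PP_eq_vt hs]
    unfold psi
    simp only [Pi.pow_apply, Pi.sub_apply, Pi.mul_apply, Nat.cast_ofNat, Nat.add_one_sub_one,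
      pow_one]
    field_simp
    linear_combination (vt (s - cc)) * h3

lemma psi_add_one (μ a s : ℂ) : psi μ a (s + 1) = cexp μ * psi μ a s := by
  unfold psi
  rw [add_sub_right_comm, (HH_theta μ a).one, vt_theta.one]
  by_cases h : vt (s - cc) = 0
  · simp [h]
  · field_simp

lemma psi_add_I (μ a s : ℂ) : psi μ a (s + I) = cexp (μ * I + 2 * π * I * a) * psi μ a s := by
  unfold psi
  rw [add_sub_right_comm, (HH_theta μ a).imag', vt_theta.imag']
  have := Complex.exp_ne_zero (π : ℂ)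
  have := Complex.exp_ne_zero (-(2 * π * I) * (s - cc))
  by_cases h : vt (s - cc) = 0
  · simp [h]
  · field_simp

lemma psi_ne_line (μ a : ℂ) {d : ℂ} (hd : d ≠ 0) (hth : ∀ t : ℝ, th (d * t) ≠ 0) :
    ∃ t : ℝ, psi μ a (d * t) ≠ 0 := by
  by_contra hcon
  push Not at hcon
  have hH := (HH_theta μ a).diff
  have := eq_zero_of_real (f := fun w => HH μ a (d * w - cc)) (by fun_prop) (fun t => by
    have := hcon t
    unfold psi at this
    exact (div_eq_zero_iff.1 this).resolve_right (vt_sub_cc (hth t))) (a / d)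
  apply HH_ne μ a
  rw [← this]; congr 1; field_simp; ring

/-- Existence of a nonzero classical Bloch solution on the plane `ℂ`. -/
def SolC (n : WithTop ℕ∞) (k₁ k₂ : ℂ) : Prop :=
  ∃ u : ℂ → ℂ, ContDiff ℝ n u ∧ u ≠ 0 ∧ (∀ z, Δ u z = 2 * GG z * u z) ∧
    (∀ z, u (z + 1) = cexp (2 * π * I * k₁) * u z) ∧ ∀ z, u (z + I) = cexp (2 * π * I * k₂) * u z

lemma sol_of_Phi {k₁ k₂ : ℂ} (h : Phi k₁ k₂ = 0) : SolC ω k₁ k₂ ∧ SolC ω k₁ (-k₂) := by
  set μ := 2 * π * I * k₁
  set a := k₂ - I * k₁ with ha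
  obtain ⟨E, hE⟩ := psi_lame (μ := μ) (a := a) (sub_eq_zero.1 h)
  have hk : μ * I + 2 * π * I * a = 2 * π * I * k₂ := by simp only [μ, ha]; ring
  obtain ⟨x, hx⟩ := psi_ne_line μ a one_ne_zero (by simpa using th_real_ne)
  obtain ⟨y, hy⟩ := psi_ne_line μ a I_ne_zero th_imag_ne
  rw [one_mul] at hx
  constructor
  · obtain ⟨h1, h2⟩ := product_solution hE hE
    refine ⟨_, h1, fun h0 => ?_, h2, fun z => ?_, fun z => ?_⟩
    · have := congrFun h0 (x + y * I)
      simp [hx, hy] at this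
    · simp only [add_re, one_re, add_im, one_im, add_zero, ofReal_add, ofReal_one, psi_add_one]
      ring
    · simp only [add_re, I_re, add_zero, add_im, I_im, ofReal_add, ofReal_one, mul_add, mul_one,
        psi_add_I, hk]
      ring
  · obtain ⟨h1, h2⟩ := product_solution hE hE.neg
    refine ⟨_, h1, fun h0 => ?_, h2, fun z => ?_, fun z => ?_⟩
    · have := congrFun h0 (x - y * I)
      simp [hx, hy] at this
    · simp only [add_re, one_re, add_im, one_im, add_zero, ofReal_add, ofReal_one, psi_add_one]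
      ring
    · simp only [add_re, I_re, add_zero, add_im, I_im, ofReal_add, ofReal_one, mul_add, mul_one]
      have h3 := psi_add_I μ a (-(I * z.im + I))
      rw [hk, show -(I * z.im + I) + I = -(I * z.im) by ring] at h3
      rw [h3]
      have : cexp (2 * π * I * -k₂) * cexp (2 * π * I * k₂) = 1 := by
        rw [← Complex.exp_add]; simp
      linear_combination (-psi μ a z.re * psi μ a (-(I * z.im + I))) * this

theorem solC_iff {n : WithTop ℕ∞} (hn : 2 ≤ n) (k₁ k₂ : ℂ) :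
    SolC n k₁ k₂ ↔ Phi k₁ k₂ = 0 ∨ Phi k₁ (-k₂) = 0 := by
  constructor
  · rintro ⟨u, hu, hne, heq, h1, h2⟩
    exact mem_curves (hu.of_le hn) heq h1 h2 hne
  · have mono : ∀ {a b : ℂ}, SolC ω a b → SolC n a b := by
      rintro a b ⟨u, hu, h⟩
      exact ⟨u, hu.of_le le_top, h⟩
    rintro (h | h)
    · exact mono (sol_of_Phi h).1
    · simpa using mono (sol_of_Phi h).2

lemma Phi_add_right (k₁ k₂ : ℂ) : Phi k₁ (k₂ + 1) = -Phi k₁ k₂ := by
  unfold Phi
  rw [add_sub_right_comm, shift_deriv vt_diff vt_diff vt_theta.one', vt_theta.one]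
  simp only [zero_mul, Complex.exp_zero]; ring

lemma Phi_add_left (k₁ k₂ : ℂ) :
    Phi k₁ k₂ = -cexp π * cexp (-(2 * π * I) * (k₂ - I * (k₁ + 1))) * Phi (k₁ + 1) k₂ := by
  unfold Phi
  have h1 := shift_deriv vt_diff vt_diff vt_theta.imag' (k₂ - I * (k₁ + 1))
  have h2 := vt_theta.imag' (k₂ - I * (k₁ + 1))
  rw [show k₂ - I * (k₁ + 1) + I = k₂ - I * k₁ by ring] at h1 h2
  rw [h1, h2]; ring

lemma Phi_int (k₁ k₂ : ℂ) (m n : ℤ) : Phi (k₁ + m) (k₂ + n) = 0 ↔ Phi k₁ k₂ = 0 := by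
  have hr : ∀ a b, Phi a (b + 1) = 0 ↔ Phi a b = 0 := by
    intro a b; rw [Phi_add_right, neg_eq_zero]
  have hl : ∀ a b, Phi (a + 1) b = 0 ↔ Phi a b = 0 := by
    intro a b; rw [Phi_add_left a b]; simp [Complex.exp_ne_zero]
  have h1 : ∀ (n : ℤ) a b, Phi a (b + n) = 0 ↔ Phi a b = 0 := by
    intro n a b
    induction n using Int.induction_on with
    | zero => simp
    | succ n ih => rw [← ih, ← hr a (b + ((n : ℤ) : ℂ))]; push_cast; rw [add_assoc]
    | pred n ih =>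
      rw [← ih, ← hr a (b + ((-(n : ℤ) - 1 : ℤ) : ℂ))]; push_cast
      rw [show b + (-(n : ℂ) - 1) + 1 = b + -n by ring]
  have h2 : ∀ (m : ℤ) a b, Phi (a + m) b = 0 ↔ Phi a b = 0 := by
    intro n a b
    induction n using Int.induction_on with
    | zero => simp
    | succ n ih => rw [← ih, ← hl (a + ((n : ℤ) : ℂ)) b]; push_cast; rw [add_assoc]
    | pred n ih =>
      rw [← ih, ← hl (a + ((-(n : ℤ) - 1 : ℤ) : ℂ)) b]; push_cast
      rw [show a + (-(n : ℂ) - 1) + 1 = a + -n by ring]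
  rw [h1, h2]

lemma exists_proper : ∃ k₁ k₂ : ℂ, Phi k₁ k₂ = 0 ∧ Phi k₁ (-k₂) ≠ 0 := by
  obtain ⟨a, ha⟩ := exists_crit
  refine ⟨I * a / 2, a / 2, ?_, ?_⟩
  · unfold Phi
    rw [show a / 2 - I * (I * a / 2) = a by linear_combination (-a / 2) * I_sq, ha]
    linear_combination (-π * a * vt a) * I_sq
  · unfold Phi
    rw [show -(a / 2) - I * (I * a / 2) = 0 by linear_combination (-a / 2) * I_sq, vt_zero]
    simpa using deriv_vt_zero_ne

end

end Pool.Agent.P.MP_a11f68_mp
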