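import Pool.Agent.P.MP_a11f68_mp.Theta

/-!
Theta identities: the factorisation of `P a - P b`, simplicity of the zeros of `vt`, the Lame
equation, and a critical point of the sigma function.
-/

namespace Pool.Agent.P.MP_a11f68_mp

open Complex Real MeasureTheory ComplexConjugate

noncomputable section

/-- `WW = th' ^ 2 - th th''`. -/
def WW (a : ℂ) : ℂ := deriv th a ^ 2 - th a * deriv (deriv th) a

/-- `PP = - (log th)''`. -/
def PP (a : ℂ) : ℂ := WW a / th a ^ 2

/-- `ZZ = (log th)'`. -/
def ZZ (a : ℂ) : ℂ := deriv th a / th a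

/-- The constant in the factorisation. -/
def CF : ℂ := -(deriv th cc ^ 2) * cexp (-π)

lemma WW_diff : Differentiable ℂ WW := by
  have h1 := th_diff
  have h2 := h1.deriv
  have h3 := h2.deriv
  unfold WW; fun_prop

lemma WW_eq (a : ℂ) : WW a = -1 / 2 * hir th th a := by unfold WW hir; ring

lemma hasDerivAt_ZZ {a : ℂ} (ha : th a ≠ 0) : HasDerivAt ZZ (-PP a) a := by
  have := ((th_diff.deriv a).hasDerivAt).div (th_diff a).hasDerivAt ha
  refine this.congr_deriv ?_
  unfold PP WW
  field_simp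
  ring

lemma PP_differentiableAt {a : ℂ} (ha : th a ≠ 0) : DifferentiableAt ℂ PP a :=
  (WW_diff a).div ((th_diff a).pow 2) (pow_ne_zero 2 ha)

lemma vt_cc_mul (b : ℂ) : vt (cc + b) * vt (cc - b) = -cexp π * th b ^ 2 := by
  unfold vt
  have h1 : cc + b + cc = b + 1 + I := by unfold cc; ring
  have h2 : cc - b + cc = -b + 1 + I := by unfold cc; ring
  rw [h1, h2, th_add_one_add_I, th_add_one_add_I, th_neg]
  have : cexp (π * I * (cc + b)) * cexp (-(2 * π * I) * b) * cexp (π * I * (cc - b))
      * cexp (-(2 * π * I) * -b) * cexp π = -1 := by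
    rw [← Complex.exp_add, ← Complex.exp_add, ← Complex.exp_add, ← Complex.exp_add,
      ← Complex.exp_pi_mul_I]
    congr 1; unfold cc
    linear_combination (π : ℂ) * I_sq
  linear_combination (cexp π * th b ^ 2) * this

lemma vt_shift_ne (a : ℂ) : vt ((-cc + a) - a) ≠ 0 := by
  simpa using vt_neg_cc_ne

lemma factor (a : ℂ) {b : ℂ} (hb : th b ≠ 0) :
    WW a * th b ^ 2 - WW b * th a ^ 2 = CF * (vt (a + b) * vt (a - b)) := by
  have hthth := th_theta.mul th_theta
  have hW := th_theta.hir th_theta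
  have hF := hW.comb hthth (-1 / 2 * th b ^ 2) (-WW b)
  have hg0 := (vt_theta.twist 0 (-b)).mul (vt_theta.twist 0 b)
  have hg : IsTheta 2 (1 * 1) (cexp π * cexp π) (fun z => vt (z + b) * vt (z - b)) := by
    convert hg0 using 1
    · simp
    · have : cexp (0 * I + 2 * π * I * -b) * cexp (0 * I + 2 * π * I * b) = 1 := by
        rw [← Complex.exp_add]; simp
      linear_combination (-(cexp π * cexp π)) * this
    · ext z; simp
  obtain ⟨w, hw1, hw2⟩ := exists_ne_zero₂ (f := fun z => vt (z - -b)) (g := fun z => vt (z - b))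
    (by have := vt_diff; fun_prop) (by have := vt_diff; fun_prop) (vt_shift_ne (-b))
    (vt_shift_ne b)
  obtain ⟨c, hc⟩ := IsTheta.dim_two (by simp) (by simp) hF hg hthth (p := b) (w := w)
    (by rw [WW_eq]; ring) (by simp [vt_zero]) (mul_ne_zero hb hb)
    (mul_ne_zero (by simpa using hw1) hw2)
  have hcc := hc cc
  rw [vt_cc_mul, th_cc] at hcc
  have hWcc : -1 / 2 * hir th th cc = deriv th cc ^ 2 := by
    rw [← WW_eq]; unfold WW; rw [th_cc]; ring
  have hcval : c = CF := by
    have h1 : (deriv th cc ^ 2 + c * cexp π) * th b ^ 2 = 0 := by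
      linear_combination hcc - th b ^ 2 * hWcc
    have h2 := (mul_eq_zero.1 h1).resolve_right (pow_ne_zero 2 hb)
    unfold CF
    have h3 : cexp π * cexp (-π) = 1 := by rw [← Complex.exp_add]; simp
    linear_combination cexp (-π) * h2 - c * h3
  have := hc a
  rw [hcval] at this
  rw [WW_eq a]
  linear_combination this

lemma ZZ_add_one (a : ℂ) : ZZ (a + 1) = ZZ a := by
  unfold ZZ
  rw [shift_deriv th_diff th_diff th_theta.one', th_theta.one]
  simp

lemma ZZ_add_I {a : ℂ} (ha : th a ≠ 0) : ZZ (a + I) = ZZ a - 2 * π * I := by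
  unfold ZZ
  rw [shift_deriv th_diff th_diff th_theta.imag', th_theta.imag']
  have := Complex.exp_ne_zero (π : ℂ)
  have := Complex.exp_ne_zero (-(2 * π * I) * a)
  field_simp
  ring

lemma WW_add_one (a : ℂ) : WW (a + 1) = WW a := by
  rw [WW_eq, WW_eq, (th_theta.hir th_theta).one]; ring

lemma PP_add_one (a : ℂ) : PP (a + 1) = PP a := by
  unfold PP; rw [WW_add_one, th_theta.one, one_mul]

lemma PP_add_I (a : ℂ) : PP (a + I) = PP a := by
  unfold PP
  rw [WW_eq, WW_eq, (th_theta.hir th_theta).imag, th_theta.imag', exp_two]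
  have := Complex.exp_ne_zero (π : ℂ)
  have := Complex.exp_ne_zero (-(2 * π * I) * a)
  by_cases h : th a = 0
  · simp [h]
  · field_simp

lemma PP_neg (a : ℂ) : PP (-a) = PP a := by
  unfold PP WW; rw [deriv_th_neg, th_neg, deriv2_th_neg]; ring

lemma PP_conj (a : ℂ) : PP (conj a) = conj (PP a) := by
  unfold PP WW
  rw [conj_deriv (conj_deriv th_conj), conj_deriv th_conj, th_conj]
  simp

lemma continuous_PP_re : Continuous fun x : ℝ => PP x :=
  continuous_iff_continuousAt.2 fun x =>
    (PP_differentiableAt (th_real_ne x)).continuousAt.comp continuous_ofReal.continuousAt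

lemma continuous_PP_im : Continuous fun y : ℝ => PP (I * y) :=
  continuous_iff_continuousAt.2 fun y =>
    ContinuousAt.comp (g := PP) (f := fun y : ℝ => I * (y : ℂ))
      (PP_differentiableAt (th_imag_ne y)).continuousAt (by fun_prop)

lemma integral_PP_re : ∫ x : ℝ in (0 : ℝ)..1, PP x = 0 := by
  have := intervalIntegral.integral_eq_sub_of_hasDerivAt (a := (0 : ℝ)) (b := 1)
    (f := fun x : ℝ => -ZZ x) (f' := fun x : ℝ => PP x)
    (fun x _ => (hasDerivAt_ZZ (th_real_ne x)).comp_ofReal.neg.congr_deriv (neg_neg _))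
    (continuous_PP_re.intervalIntegrable _ _)
  rw [this]
  have h := ZZ_add_one 0
  simp only [zero_add] at h
  simp [h]

lemma integral_PP_im : ∫ y : ℝ in (0 : ℝ)..1, PP (I * y) = 2 * π := by
  have := intervalIntegral.integral_eq_sub_of_hasDerivAt (a := (0 : ℝ)) (b := 1)
    (f := fun y : ℝ => I * ZZ (I * y)) (f' := fun y : ℝ => PP (I * y))
    (fun y _ => by
      have h1 : HasDerivAt (fun w : ℂ => I * ZZ (I * w)) (I * (-PP (I * y) * I)) (y : ℂ) := by
        refine HasDerivAt.const_mul I ?_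
        have := (hasDerivAt_ZZ (th_imag_ne y)).comp (y : ℂ)
          ((hasDerivAt_id (y : ℂ)).const_mul I)
        exact this.congr_deriv (by ring)
      refine h1.comp_ofReal.congr_deriv ?_
      linear_combination -PP (I * y) * I_sq)
    (continuous_PP_im.intervalIntegrable _ _)
  rw [this]
  have h := ZZ_add_I (a := 0) (by simpa using th_real_ne 0)
  simp only [zero_add] at h
  simp only [ofReal_one, mul_one, ofReal_zero, mul_zero, h]
  linear_combination (-2 * π : ℂ) * I_sq

lemma PP_sub {a b : ℂ} (ha : th a ≠ 0) (hb : th b ≠ 0) :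
    (PP a - PP b) * (th a * th b) ^ 2 = CF * (vt (a + b) * vt (a - b)) := by
  rw [← factor a hb]
  unfold PP
  field_simp

lemma CF_ne : CF ≠ 0 := by
  intro h
  have h0 : th 0 ≠ 0 := by simpa using th_real_ne 0
  have key : ∀ a, th a ≠ 0 → PP a = PP 0 := by
    intro a ha
    have := PP_sub ha h0
    rw [h, zero_mul] at this
    have h2 := (mul_eq_zero.1 this).resolve_right (pow_ne_zero 2 (mul_ne_zero ha h0))
    linear_combination h2
  have h1 := integral_PP_re
  have h2 := integral_PP_im
  simp only [key _ (th_real_ne _)] at h1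
  simp only [key _ (th_imag_ne _)] at h2
  rw [h1] at h2
  have : (2 * π : ℂ) ≠ 0 := by simp [Real.pi_ne_zero]
  exact this h2.symm

lemma vt_simple {z : ℂ} (h : vt z = 0) : deriv vt z ≠ 0 := by
  intro h'
  have h1 : th (z + cc) = 0 := by rw [th_shift, h, mul_zero]
  have h2 : deriv th (z + cc) = 0 := by rw [shift_deriv th_diff vt_diff th_shift, h, h']; simp
  have h3 : WW (z + cc) = 0 := by unfold WW; rw [h1, h2]; ring
  set a := z + cc
  obtain ⟨w, hw1, hw2⟩ := exists_ne_zero₂ (f := fun b => vt (b - -a)) (g := fun b => vt (b - a))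
    (by have := vt_diff; fun_prop) (by have := vt_diff; fun_prop) (vt_shift_ne (-a))
    (vt_shift_ne a)
  obtain ⟨b, hb1, hb2⟩ := exists_ne_zero₂ (f := fun b => vt (b - -a) * vt (b - a)) (g := th)
    (by have := vt_diff; fun_prop) th_diff (mul_ne_zero hw1 hw2) (th_real_ne 0)
  have := factor a hb2
  rw [h1, h3] at this
  have h4 : vt (a - b) = -1 * vt (b - a) := by rw [← vt_neg]; congr 1; ring
  rw [h4, show a + b = b - -a by ring] at this
  apply mul_ne_zero CF_ne hb1
  linear_combination this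

lemma deriv_vt_zero_ne : deriv vt 0 ≠ 0 := vt_simple vt_zero

lemma vt_conj_real (t : ℝ) : conj (vt t) = -vt t := by
  unfold vt
  rw [map_mul, ← th_conj, ← Complex.exp_conj]
  have h1 : th (t + cc) = cexp π * cexp (-(2 * π * I) * conj (t + cc)) * th (conj (t + cc)) := by
    rw [← th_theta.imag']
    congr 1
    unfold cc
    simp only [map_add, conj_ofReal, map_div₀, map_one, conj_I, map_ofNat]
    ring
  rw [h1]
  have : cexp (π * I * t) * cexp π * cexp (-(2 * π * I) * conj (t + cc))
      = -cexp (conj (π * I * t)) := by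
    rw [← Complex.exp_add, ← Complex.exp_add, ← Complex.exp_add_pi_mul_I]
    apply Complex.exp_eq_exp_iff_exists_int.2
    refine ⟨-1, ?_⟩
    unfold cc
    simp only [map_add, conj_ofReal, map_div₀, map_one, conj_I, map_ofNat, map_mul]
    push_cast
    linear_combination (π : ℂ) * I_sq
  linear_combination (th (conj (t + cc))) * this

/-- A critical point of the sigma function. -/
lemma exists_crit : ∃ a : ℂ, deriv vt a = -π * a * vt a := by
  set σ : ℂ → ℂ := fun z => I * (cexp (π * z ^ 2 / 2) * vt z) with hσ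
  set σ' : ℂ → ℂ := fun z => I * (cexp (π * z ^ 2 / 2) * (deriv vt z + π * z * vt z)) with hσ'
  have hd : ∀ z, HasDerivAt σ (σ' z) z := by
    intro z
    have h1 : HasDerivAt (fun z : ℂ => cexp (π * z ^ 2 / 2)) (cexp (π * z ^ 2 / 2) * (π * z)) z := by
      have := (((hasDerivAt_pow 2 z).const_mul (π : ℂ)).div_const 2).cexp
      refine this.congr_deriv ?_
      simp only [Nat.cast_ofNat, Nat.add_one_sub_one, pow_one]; ring
    have := (h1.mul (vt_diff z).hasDerivAt).const_mul I
    refine this.congr_deriv ?_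
    simp only [hσ']; ring
  have hreal : ∀ t : ℝ, σ t = ((σ t).re : ℂ) := by
    intro t
    symm
    apply conj_eq_iff_re.1
    simp only [hσ, map_mul, conj_I, vt_conj_real, ← Complex.exp_conj, map_div₀, map_pow,
      conj_ofReal, map_ofNat]
    ring
  have hre : ∀ t : ℝ, HasDerivAt (fun x : ℝ => (σ x).re) (σ' t).re t :=
    fun t => (hd t).real_of_complex
  obtain ⟨t, -, ht⟩ := exists_hasDerivAt_eq_zero (f := fun x : ℝ => (σ x).re)
    (f' := fun t : ℝ => (σ' t).re) zero_lt_one
    (fun t _ => (hre t).continuousAt.continuousWithinAt)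
    (by
      have h1 := vt_theta.one 0
      rw [zero_add, vt_zero, mul_zero] at h1
      simp [hσ, vt_zero, h1])
    (fun t _ => hre t)
  have h1 : HasDerivAt (fun x : ℝ => σ x) (σ' t) t := (hd t).comp_ofReal
  have h2 : HasDerivAt (fun x : ℝ => (((σ x).re : ℝ) : ℂ)) (((σ' t).re : ℝ) : ℂ) t :=
    (hre t).ofReal_comp
  have h3 : (fun x : ℝ => σ x) = fun x : ℝ => (((σ x).re : ℝ) : ℂ) := funext hreal
  rw [← h3] at h2
  have h4 := h1.unique h2
  rw [ht] at h4
  simp only [hσ', ofReal_zero, mul_eq_zero, I_ne_zero, Complex.exp_ne_zero, false_or] at h4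
  exact ⟨t, by linear_combination h4⟩

/-- The theta function `exp(μ z) vt(z - a)`. -/
def HH (μ a : ℂ) (z : ℂ) : ℂ := cexp (μ * z) * vt (z - a)

lemma HH_theta (μ a : ℂ) :
    IsTheta 1 (cexp μ * -1) (cexp (μ * I + 2 * π * I * a) * -cexp π) (HH μ a) :=
  vt_theta.twist μ a

lemma HH_ne (μ a : ℂ) : HH μ a (-cc + a) ≠ 0 :=
  mul_ne_zero (Complex.exp_ne_zero _) (vt_shift_ne a)

lemma deriv_HH_zero (μ a : ℂ) : deriv (HH μ a) 0 = deriv vt a - μ * vt a := by
  have h : ∀ z, HH μ a (z + 0) = 1 * cexp (μ * z) * (fun z => vt (z - a)) z := by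
    intro z; simp [HH]
  have := shift_deriv (HH_theta μ a).diff (by have := vt_diff; fun_prop) h 0
  rw [add_zero] at this
  rw [this]
  have h2 : deriv (fun z => vt (z - a)) 0 = deriv vt a := by
    rw [deriv_comp_sub_const, zero_sub, deriv_vt_neg]
  rw [h2]
  simp only [mul_zero, Complex.exp_zero, zero_sub, vt_neg]
  ring

/-- The bilinear form of the Lame equation. -/
lemma lame {μ a : ℂ} (h : deriv vt a = μ * vt a) :
    ∃ E : ℂ, ∀ z, hir (HH μ a) vt z = E * (HH μ a z * vt z) := by
  have hH := HH_theta μ a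
  obtain ⟨b, hb1, hb2⟩ := exists_ne_zero₂ (f := fun b => vt (b - -a)) (g := vt)
    (by have := vt_diff; fun_prop) vt_diff (vt_shift_ne (-a)) vt_neg_cc_ne
  have hr0 := (vt_theta.twist μ (a + b)).mul (vt_theta.twist 0 (-b))
  have hr : IsTheta 2 (cexp μ * -1 * -1) (cexp (μ * I + 2 * π * I * a) * -cexp π * -cexp π)
      (fun z => cexp (μ * z) * vt (z - (a + b)) * (cexp (0 * z) * vt (z - -b))) := by
    convert hr0 using 1
    · simp
    · have : cexp (μ * I + 2 * π * I * (a + b)) * cexp (0 * I + 2 * π * I * -b)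
          = cexp (μ * I + 2 * π * I * a) := by
        rw [← Complex.exp_add]; congr 1; ring
      linear_combination (-(cexp π * cexp π)) * this
  obtain ⟨w, hw1, hw2⟩ := exists_ne_zero₂ hH.diff vt_diff (HH_ne μ a) vt_neg_cc_ne
  refine IsTheta.dim_two (by simp) (by simp) (hH.hir vt_theta) (hH.mul vt_theta) hr (p := 0)
    (w := w) ?_ (by simp [vt_zero]) ?_ (mul_ne_zero hw1 hw2)
  · unfold hir
    rw [deriv_HH_zero, vt_zero, deriv2_vt_zero, h]; ring
  · have h1 : vt (0 - (a + b)) ≠ 0 := by
      rw [show 0 - (a + b) = -(b - -a) by ring, vt_neg]; simpa using hb1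
    simp only [mul_zero, Complex.exp_zero, one_mul, zero_sub, neg_neg] at h1 ⊢
    exact mul_ne_zero h1 hb2

end

end Pool.Agent.P.MP_a11f68_mp
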