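import Pool.Agent.P.MP_a11f68_mp.Defs
import Pool.Agent.P.MP_a11f68_mp.Exist

/-!
Transport from `ℂ` to the Euclidean plane and the final theorem.
-/

namespace Pool.Agent.P.MP_a11f68_mp

open Complex Real ComplexConjugate Laplacian Filter Topology MeasureTheory
open scoped ContDiff

noncomputable section

/-- The identification of `ℂ` with the Euclidean plane. -/
abbrev ee : ℂ ≃ₗᵢ[ℝ] EuclideanSpace ℝ (Fin 2) := Complex.orthonormalBasisOneI.repr

lemma laplacian_comp_isometry {E F : Type*} [NormedAddCommGroup E] [InnerProductSpace ℝ E]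
    [FiniteDimensional ℝ E] [NormedAddCommGroup F] [InnerProductSpace ℝ F] [FiniteDimensional ℝ F]
    (e : E ≃ₗᵢ[ℝ] F) {u : F → ℂ} (hu : ContDiff ℝ 2 u) (x : E) :
    Δ (fun y => u (e y)) x = Δ u (e x) := by
  rw [InnerProductSpace.laplacian_eq_iteratedFDeriv_orthonormalBasis _ (stdOrthonormalBasis ℝ E),
    InnerProductSpace.laplacian_eq_iteratedFDeriv_orthonormalBasis _
      ((stdOrthonormalBasis ℝ E).map e)]
  refine Finset.sum_congr rfl fun i _ => ?_
  have := ContinuousLinearMap.iteratedFDeriv_comp_right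
    (e.toContinuousLinearEquiv : E →L[ℝ] F) hu x (i := 2) (by norm_num)
  have h2 : (fun y => u (e y)) = u ∘ (e.toContinuousLinearEquiv : E →L[ℝ] F) := rfl
  rw [h2, this, ContinuousMultilinearMap.compContinuousLinearMap_apply]
  congr 1
  ext j : 1
  fin_cases j <;> simp

lemma ee_symm_lattice (n : Fin 2 → ℤ) : ee.symm (latticePoint n) = n 0 + n 1 * I := by
  rw [Complex.orthonormalBasisOneI_repr_symm_apply]
  simp [latticePoint]

lemma shift_int {u : ℂ → ℂ} {γ α : ℂ} (h : ∀ z, u (z + γ) = cexp α * u z) (n : ℤ) (z : ℂ) :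
    u (z + n * γ) = cexp (n * α) * u z := by
  induction n using Int.induction_on with
  | zero => simp
  | succ n ih =>
    push_cast at ih ⊢
    rw [add_mul, one_mul, ← add_assoc, h, ih, ← mul_assoc, ← Complex.exp_add]
    congr 2; ring
  | pred n ih =>
    push_cast at ih ⊢
    have := h (z + (-(n : ℂ) - 1) * γ)
    rw [show z + (-(n : ℂ) - 1) * γ + γ = z + -n * γ by ring, ih] at this
    have h2 : cexp ((-(n : ℂ) - 1) * α) * cexp α = cexp (-n * α) := by
      rw [← Complex.exp_add]; congr 1; ring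
    apply mul_left_cancel₀ (Complex.exp_ne_zero α)
    rw [← this, ← h2]; ring

/-- The potential. -/
def VV (x : EuclideanSpace ℝ (Fin 2)) : ℝ := 2 * (GG (ee.symm x)).re

lemma VV_coe (x : EuclideanSpace ℝ (Fin 2)) : (VV x : ℂ) = 2 * GG (ee.symm x) := by
  unfold VV; push_cast; rw [GG_real]

lemma contDiff_VV : ContDiff ℝ ω VV :=
  contDiff_const.mul (reCLM.contDiff.comp (contDiff_GG.comp ee.symm.contDiff))

lemma VV_periodic (n : Fin 2 → ℤ) (x : EuclideanSpace ℝ (Fin 2)) :
    VV (x + latticePoint n) = VV x := by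
  unfold VV
  rw [map_add, ee_symm_lattice, ← add_assoc,
    shift_int (u := GG) (α := 0) (fun z => by simp [GG_add_I])]
  have := shift_int (u := GG) (γ := 1) (α := 0) (fun z => by simp [GG_add_one]) (n 0) (ee.symm x)
  rw [mul_one] at this
  rw [this]; simp

lemma average_VV : average (fun x => (VV x : ℂ)) = -(4 * π) := by
  unfold average
  have hmp : MeasurePreserving (fun p : ℝ × ℝ => ee (measurableEquivRealProd.symm p)) :=
    ee.measurePreserving.comp volume_preserving_equiv_real_prod.symm
  have hemb : MeasurableEmbedding (fun p : ℝ × ℝ => ee (measurableEquivRealProd.symm p)) :=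
    ee.toHomeomorph.measurableEmbedding.comp measurableEquivRealProd.symm.measurableEmbedding
  rw [← hmp.setIntegral_preimage_emb hemb]
  have hset : (fun p : ℝ × ℝ => ee (measurableEquivRealProd.symm p)) ⁻¹'
      {x : EuclideanSpace ℝ (Fin 2) | ∀ i, x i ∈ Set.Icc (0 : ℝ) 1}
      = Set.Icc (0 : ℝ) 1 ×ˢ Set.Icc (0 : ℝ) 1 := by
    ext p
    simp only [Set.mem_preimage, Set.mem_ofPred_eq, Fin.forall_fin_two, Set.mem_prod]
    simp [Complex.orthonormalBasisOneI_repr_apply]
  have hfun : ∀ p : ℝ × ℝ, (VV (ee (measurableEquivRealProd.symm p)) : ℂ)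
      = 2 * GG (p.1 + p.2 * I) := by
    intro p
    rw [VV_coe, LinearIsometryEquiv.symm_apply_apply, measurableEquivRealProd_symm_apply,
      mk_eq_add_mul_I]
  simp only [hset, hfun]
  have hc : Continuous fun p : ℝ × ℝ => 2 * GG (p.1 + p.2 * I) := by
    have := contDiff_GG.continuous
    fun_prop
  rw [Measure.volume_eq_prod, setIntegral_prod _
    (hc.continuousOn.integrableOn_compact (isCompact_Icc.prod isCompact_Icc))]
  have := integral_GG
  simp only [intervalIntegral.integral_of_le zero_le_one, ← integral_Icc_eq_integral_Ioc] at this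
  simp only [integral_const_mul, this]
  ring

lemma mem_fermi (k : Fin 2 → ℂ) : k ∈ fermiVariety (fun x => (VV x : ℂ)) ((0 : ℝ) : ℂ) ↔
    Phi (k 0) (k 1) = 0 ∨ Phi (k 0) (-k 1) = 0 := by
  rw [← solC_iff (n := 2) le_rfl]
  constructor
  · rintro ⟨u, hu, hne, heq, hB⟩
    refine ⟨fun z => u (ee z), hu.comp ee.contDiff, fun h0 => hne ?_, fun z => ?_, fun z => ?_,
      fun z => ?_⟩
    · ext x
      have := congrFun h0 (ee.symm x)
      rwa [LinearIsometryEquiv.apply_symm_apply] at this
    · rw [laplacian_comp_isometry ee hu]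
      have := heq (ee z)
      simp only [VV_coe, LinearIsometryEquiv.symm_apply_apply, ofReal_zero, zero_mul] at this
      linear_combination -this
    · have := hB ![1, 0] (ee z)
      have h1 : latticePoint ![1, 0] = ee 1 := by
        apply ee.symm.injective; rw [ee_symm_lattice]; simp
      rw [h1, ← map_add] at this
      simpa using this
    · have := hB ![0, 1] (ee z)
      have h1 : latticePoint ![0, 1] = ee I := by
        apply ee.symm.injective; rw [ee_symm_lattice]; simp
      rw [h1, ← map_add] at this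
      simpa using this
  · rintro ⟨u, hu, hne, heq, h1, h2⟩
    refine ⟨fun x => u (ee.symm x), hu.comp ee.symm.contDiff, fun h0 => hne ?_, fun x => ?_,
      fun n x => ?_⟩
    · ext z
      simpa using congrFun h0 (ee z)
    · rw [laplacian_comp_isometry ee.symm hu, heq]
      simp only [VV_coe, ofReal_zero]
      ring
    · simp only [map_add, ee_symm_lattice]
      have := shift_int h1 (n 0) (ee.symm x)
      rw [mul_one] at this
      rw [← add_assoc, shift_int h2, this, ← mul_assoc, ← Complex.exp_add, Fin.sum_univ_two]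
      congr 2; ring

lemma analytic_Phi (s : ℂ) :
    AnalyticOnNhd ℂ (fun k : Fin 2 → ℂ => Phi (k 0) (s * k 1)) Set.univ := by
  intro k _
  have h0 : ∀ i, AnalyticAt ℂ (fun k : Fin 2 → ℂ => k i) k :=
    fun i => (ContinuousLinearMap.proj (R := ℂ) (φ := fun _ : Fin 2 => ℂ) i).analyticAt k
  have h1 : AnalyticAt ℂ (fun k : Fin 2 → ℂ => s * k 1 - I * k 0) k :=
    (analyticAt_const.mul (h0 1)).sub (analyticAt_const.mul (h0 0))
  exact ((vt_diff.deriv.analyticAt _).fun_comp h1).sub
    ((analyticAt_const.mul (h0 0)).mul ((vt_diff.analyticAt _).fun_comp h1))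

theorem main : ∃ V : EuclideanSpace ℝ (Fin 2) → ℝ, AnalyticOnNhd ℝ V Set.univ ∧
    (∀ (n : Fin 2 → ℤ) (x : EuclideanSpace ℝ (Fin 2)), V (x + latticePoint n) = V x) ∧
    ∃ lam : ℝ, (lam : ℂ) ≠ average (fun x => (V x : ℂ)) ∧
      ¬ IrreducibleModPeriodicity (fermiVariety (fun x => (V x : ℂ)) lam) := by
  refine ⟨VV, contDiff_omega_iff_analyticOnNhd.1 contDiff_VV, VV_periodic, 0, ?_, ?_⟩
  · rw [average_VV]
    simp [Real.pi_ne_zero]
  · obtain ⟨k₁, k₂, hk, hk'⟩ := exists_proper
    have han : ∀ s : ℂ, IsAnalyticSubset {k : Fin 2 → ℂ | Phi (k 0) (s * k 1) = 0} := fun s p =>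
      ⟨Set.univ, isOpen_univ, Set.mem_univ p, 1, fun _ k => Phi (k 0) (s * k 1),
        fun _ => analytic_Phi s, fun k _ => by simp⟩
    refine not_not.2 ⟨{k | Phi (k 0) (1 * k 1) = 0}, {k | Phi (k 0) (-1 * k 1) = 0}, han 1,
      han (-1), ?_, ?_, ⟨?_, ?_⟩, ⟨?_, ?_⟩, ?_⟩
    · intro k hk n
      simp only [Set.mem_ofPred_eq, one_mul] at hk ⊢
      exact (Phi_int _ _ _ _).2 hk
    · intro k hk n
      simp only [Set.mem_ofPred_eq] at hk ⊢
      have := (Phi_int (k 0) (-1 * k 1) (n 0) (-n 1)).2 hk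
      convert this using 2
      push_cast; ring
    · intro k hk
      exact (mem_fermi k).2 (Or.inl (by simpa using hk))
    · intro h
      have := h ((mem_fermi ![k₁, -k₂]).2 (Or.inr (by simpa using hk)))
      exact hk' (by simpa using this)
    · intro k hk
      exact (mem_fermi k).2 (Or.inr (by simpa using hk))
    · intro h
      have := h ((mem_fermi ![k₁, k₂]).2 (Or.inl (by simpa using hk)))
      exact hk' (by simpa using this)
    · ext k
      rw [mem_fermi]
      simp

end

end Pool.Agent.P.MP_a11f68_mp
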