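import Pool.Agent.P.MP_a11f68_mp.ThetaDim

/-!
The even theta function `th` and the odd theta function `vt` for the lattice `ℤ + iℤ`, and the
identities between them which are needed for the Lame potential.
-/

namespace Pool.Agent.P.MP_a11f68_mp

open Complex Real MeasureTheory ComplexConjugate

noncomputable section

lemma shift_deriv {f g : ℂ → ℂ} (hf : Differentiable ℂ f) (hg : Differentiable ℂ g) {ω K α : ℂ}
    (h : ∀ z, f (z + ω) = K * cexp (α * z) * g z) (z : ℂ) :
    deriv f (z + ω) = K * cexp (α * z) * (deriv g z + α * g z) := by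
  have h1 : HasDerivAt (fun z => f (z + ω)) (deriv f (z + ω)) z :=
    (hf (z + ω)).hasDerivAt.comp_add_const z ω
  have h2 : HasDerivAt (fun z => K * cexp (α * z) * g z)
      (K * (cexp (α * z) * α) * g z + K * cexp (α * z) * deriv g z) z := by
    have : HasDerivAt (fun z => cexp (α * z)) (cexp (α * z) * α) z := by
      simpa using ((hasDerivAt_id z).const_mul α).cexp
    exact (this.const_mul K).mul (hg z).hasDerivAt
  have h3 : (fun z => f (z + ω)) = fun z => K * cexp (α * z) * g z := funext h
  rw [h3] at h1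
  rw [h1.unique h2]; ring

lemma shift_deriv2 {f g : ℂ → ℂ} (hf : Differentiable ℂ f) (hg : Differentiable ℂ g) {ω K α : ℂ}
    (h : ∀ z, f (z + ω) = K * cexp (α * z) * g z) (z : ℂ) :
    deriv (deriv f) (z + ω)
      = K * cexp (α * z) * (deriv (deriv g) z + 2 * α * deriv g z + α ^ 2 * g z) := by
  have hg' : Differentiable ℂ (deriv g) := hg.deriv
  have := shift_deriv (f := deriv f) (g := fun z => deriv g z + α * g z) hf.deriv
    (hg'.add (hg.const_mul α)) (shift_deriv hf hg h) z
  rw [this]
  have h2 : deriv (fun z => deriv g z + α * g z) z = deriv (deriv g) z + α * deriv g z :=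
    ((hg' z).hasDerivAt.add ((hg z).hasDerivAt.const_mul α)).deriv
  rw [h2]; ring

lemma neg_deriv {f : ℂ → ℂ} (hf : Differentiable ℂ f) {ε : ℂ} (h : ∀ z, f (-z) = ε * f z) (z : ℂ) :
    deriv f (-z) = -ε * deriv f z := by
  have h1 : HasDerivAt (fun z => f (-z)) (deriv f (-z) * (-1)) z :=
    (hf (-z)).hasDerivAt.comp z (hasDerivAt_neg z)
  have h2 : HasDerivAt (fun z => ε * f z) (ε * deriv f z) z := (hf z).hasDerivAt.const_mul ε
  have h3 : (fun z => f (-z)) = fun z => ε * f z := funext h
  rw [h3] at h1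
  have := h1.unique h2
  linear_combination -this

lemma conj_deriv {f : ℂ → ℂ} (h : ∀ z, f (conj z) = conj (f z)) (z : ℂ) :
    deriv f (conj z) = conj (deriv f z) := by
  have h1 : (conj ∘ f ∘ conj : ℂ → ℂ) = f := by
    ext w; simp [h]
  have := congrFun (deriv_conj_conj (f := f)) (conj z)
  rw [h1] at this
  simpa using this

lemma exists_ne_zero₂ {f g : ℂ → ℂ} (hf : Differentiable ℂ f) (hg : Differentiable ℂ g)
    {a b : ℂ} (ha : f a ≠ 0) (hb : g b ≠ 0) : ∃ w, f w ≠ 0 ∧ g w ≠ 0 := by
  by_contra hcon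
  push Not at hcon
  have := AnalyticOnNhd.eq_zero_or_eq_zero_of_mul_eq_zero
    (hf.differentiableOn.analyticOnNhd isOpen_univ) (hg.differentiableOn.analyticOnNhd isOpen_univ)
    (fun z _ => by
      by_cases h : f z = 0
      · simp [h]
      · simp [hcon z h]) isPreconnected_univ
  rcases this with h | h
  · exact ha (h a (Set.mem_univ _))
  · exact hb (h b (Set.mem_univ _))

/-- The Hirota bilinear second derivative. -/
def hir (f g : ℂ → ℂ) (z : ℂ) : ℂ :=
  deriv (deriv f) z * g z - 2 * deriv f z * deriv g z + f z * deriv (deriv g) z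

lemma IsTheta.one' {n : ℕ} {s C : ℂ} {f : ℂ → ℂ} (hf : IsTheta n s C f) (z : ℂ) :
    f (z + 1) = s * cexp (0 * z) * f z := by simp [hf.one]

lemma IsTheta.imag' {s C : ℂ} {f : ℂ → ℂ} (hf : IsTheta 1 s C f) (z : ℂ) :
    f (z + I) = C * cexp (-(2 * π * I) * z) * f z := by
  rw [hf.imag]; congr 3; push_cast; ring

lemma exp_two (z : ℂ) : cexp (-(2 * π * I * ((2 : ℕ) : ℂ) * z))
    = cexp (-(2 * π * I) * z) * cexp (-(2 * π * I) * z) := by
  rw [← Complex.exp_add]; congr 1; push_cast; ring

lemma IsTheta.mul {s C s' C' : ℂ} {f g : ℂ → ℂ} (hf : IsTheta 1 s C f) (hg : IsTheta 1 s' C' g) :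
    IsTheta 2 (s * s') (C * C') (fun z => f z * g z) where
  diff := hf.diff.mul hg.diff
  one z := by rw [hf.one, hg.one]; ring
  imag z := by rw [hf.imag', hg.imag', exp_two]; ring

lemma IsTheta.hir {s C s' C' : ℂ} {f g : ℂ → ℂ} (hf : IsTheta 1 s C f) (hg : IsTheta 1 s' C' g) :
    IsTheta 2 (s * s') (C * C') (hir f g) where
  diff := by
    have h1 := hf.diff
    have h2 := hg.diff
    have h3 := h1.deriv
    have h4 := h2.deriv
    have h5 := h3.deriv
    have h6 := h4.deriv
    unfold MP_a11f68_mp.hir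
    fun_prop
  one z := by
    unfold MP_a11f68_mp.hir
    rw [shift_deriv2 hf.diff hf.diff hf.one', shift_deriv2 hg.diff hg.diff hg.one',
      shift_deriv hf.diff hf.diff hf.one', shift_deriv hg.diff hg.diff hg.one', hf.one, hg.one]
    simp only [zero_mul, Complex.exp_zero]; ring
  imag z := by
    unfold MP_a11f68_mp.hir
    rw [shift_deriv2 hf.diff hf.diff hf.imag', shift_deriv2 hg.diff hg.diff hg.imag',
      shift_deriv hf.diff hf.diff hf.imag', shift_deriv hg.diff hg.diff hg.imag', hf.imag',
      hg.imag', exp_two]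
    ring

lemma IsTheta.twist {s C : ℂ} {f : ℂ → ℂ} (hf : IsTheta 1 s C f) (μ a : ℂ) :
    IsTheta 1 (cexp μ * s) (cexp (μ * I + 2 * π * I * a) * C)
      (fun z => cexp (μ * z) * f (z - a)) where
  diff := by have := hf.diff; fun_prop
  one z := by
    rw [add_sub_right_comm, hf.one, mul_add, Complex.exp_add, mul_one]; ring
  imag z := by
    rw [add_sub_right_comm, hf.imag']
    have : cexp (μ * (z + I)) * cexp (-(2 * π * I) * (z - a))
        = cexp (μ * I + 2 * π * I * a) * cexp (-(2 * π * I * ((1 : ℕ) : ℂ) * z)) * cexp (μ * z) := by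
      rw [← Complex.exp_add, ← Complex.exp_add, ← Complex.exp_add]; congr 1; push_cast; ring
    linear_combination (C * f (z - a)) * this

/-- The even theta function. -/
def th (z : ℂ) : ℂ := jacobiTheta₂ z I

/-- The half period `(1 + i) / 2`. -/
def cc : ℂ := (1 + I) / 2

/-- The odd theta function. -/
def vt (z : ℂ) : ℂ := cexp (π * I * z) * th (z + cc)

lemma th_diff : Differentiable ℂ th := fun z => differentiableAt_jacobiTheta₂_fst z (by simp)

lemma th_theta : IsTheta 1 1 (cexp π) th where
  diff := th_diff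
  one z := by simp [th, jacobiTheta₂_add_left]
  imag z := by
    unfold th
    rw [jacobiTheta₂_add_left', ← Complex.exp_add]
    congr 2; push_cast
    linear_combination (-π : ℂ) * I_sq

lemma th_neg (z : ℂ) : th (-z) = th z := by simp [th]

lemma th_conj (z : ℂ) : th (conj z) = conj (th z) := by
  unfold th; rw [jacobiTheta₂_conj]; simp

lemma th_add_one_add_I (z : ℂ) : th (z + 1 + I) = cexp π * cexp (-(2 * π * I) * z) * th z := by
  rw [add_right_comm, th_theta.one, th_theta.imag', one_mul]

lemma vt_diff : Differentiable ℂ vt := by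
  have := th_diff
  unfold vt; fun_prop

lemma vt_theta : IsTheta 1 (-1) (-cexp π) vt where
  diff := vt_diff
  one z := by
    unfold vt
    rw [add_right_comm, th_theta.one, mul_add, Complex.exp_add, mul_one, Complex.exp_pi_mul_I]
    ring
  imag z := by
    unfold vt
    rw [add_right_comm, th_theta.imag']
    have : cexp (π * I * (z + I)) * cexp (-(2 * π * I) * (z + cc))
        = -(cexp (-(2 * π * I * ((1 : ℕ) : ℂ) * z)) * cexp (π * I * z)) := by
      rw [← Complex.exp_add, ← Complex.exp_add, ← Complex.exp_add_pi_mul_I]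
      apply Complex.exp_eq_exp_iff_exists_int.2
      refine ⟨-1, ?_⟩
      unfold cc; push_cast
      ring
    linear_combination (cexp π * th (z + cc)) * this

lemma vt_neg (z : ℂ) : vt (-z) = -1 * vt z := by
  unfold vt
  have h1 : th (z + cc) = cexp π * cexp (-(2 * π * I) * (z - cc)) * th (-z + cc) := by
    rw [← th_neg (-z + cc), show -(-z + cc) = z - cc by ring, ← th_add_one_add_I]
    congr 1; unfold cc; ring
  rw [h1]
  have : cexp (π * I * z) * cexp π * cexp (-(2 * π * I) * (z - cc)) = -cexp (π * I * -z) := by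
    rw [← Complex.exp_add, ← Complex.exp_add, ← Complex.exp_add_pi_mul_I]
    congr 1
    unfold cc
    linear_combination (π : ℂ) * I_sq
  linear_combination (th (-z + cc)) * this

lemma vt_zero : vt 0 = 0 := by
  have := vt_neg 0
  rw [neg_zero] at this
  linear_combination this / 2

lemma deriv_vt_neg (z : ℂ) : deriv vt (-z) = deriv vt z := by
  rw [neg_deriv vt_diff vt_neg]; ring

lemma deriv2_vt_zero : deriv (deriv vt) 0 = 0 := by
  have := neg_deriv (ε := 1) vt_diff.deriv (fun z => by rw [deriv_vt_neg, one_mul]) 0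
  rw [neg_zero] at this
  linear_combination this / 2

lemma deriv_th_neg (z : ℂ) : deriv th (-z) = -deriv th z := by
  rw [neg_deriv (ε := 1) th_diff (fun z => by rw [th_neg, one_mul])]; ring

lemma deriv_th_zero : deriv th 0 = 0 := by
  have := deriv_th_neg 0
  rw [neg_zero] at this
  linear_combination this / 2

lemma deriv2_th_neg (z : ℂ) : deriv (deriv th) (-z) = deriv (deriv th) z := by
  rw [neg_deriv (ε := -1) th_diff.deriv (fun z => by rw [deriv_th_neg]; ring)]; ring

lemma th_shift (z : ℂ) : th (z + cc) = 1 * cexp (-(π * I) * z) * vt z := by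
  unfold vt
  rw [one_mul, ← mul_assoc, ← Complex.exp_add]
  simp

lemma th_cc : th cc = 0 := by
  have := th_shift 0
  rwa [zero_add, vt_zero, mul_zero] at this

lemma th_imag_ne (y : ℝ) : th (I * y) ≠ 0 := by
  have hs := hasSum_jacobiTheta₂_term (I * y) (τ := I) (by simp)
  have ht : ∀ n : ℤ, jacobiTheta₂_term n (I * y) I
      = ((Real.exp (-(2 * π * n * y) - π * n ^ 2) : ℝ) : ℂ) := by
    intro n
    unfold jacobiTheta₂_term
    push_cast
    congr 1
    linear_combination (2 * π * n * y + π * n ^ 2 : ℂ) * I_sq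
  simp only [ht] at hs
  have hr := (Complex.hasSum_re hs)
  simp only [ofReal_re] at hr
  have hpos : 0 < (jacobiTheta₂ (I * y) I).re := by
    rw [← hr.tsum_eq]
    exact hr.summable.tsum_pos (fun n => (Real.exp_pos _).le) 0 (Real.exp_pos _)
  intro h
  unfold th at h
  rw [h] at hpos
  simp at hpos

lemma th_real_ne (x : ℝ) : th x ≠ 0 := by
  unfold th
  rw [jacobiTheta₂_functional_equation]
  have h1 : (-1 : ℂ) / I = I := by simp
  have h2 : (x : ℂ) / I = I * ((-x : ℝ) : ℂ) := by
    rw [div_I]; push_cast; ring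
  rw [h1, h2]
  refine mul_ne_zero (mul_ne_zero ?_ (Complex.exp_ne_zero _)) (th_imag_ne _)
  simp

lemma vt_neg_cc_ne : vt (-cc) ≠ 0 := by
  unfold vt
  refine mul_ne_zero (Complex.exp_ne_zero _) ?_
  simpa using th_real_ne 0

end

end Pool.Agent.P.MP_a11f68_mp
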