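import Mathlib

/-!
Dimension bounds for spaces of theta functions for the lattice `ℤ + iℤ`.
-/

namespace Pool.Agent.P.MP_a11f68_mp

open Complex Real MeasureTheory

noncomputable section

/-- Entire functions with multipliers `s` under `z ↦ z + 1` and `C exp(-2 π i n z)` under
`z ↦ z + i`. -/
structure IsTheta (n : ℕ) (s C : ℂ) (f : ℂ → ℂ) : Prop where
  diff : Differentiable ℂ f
  one : ∀ z, f (z + 1) = s * f z
  imag : ∀ z, f (z + I) = C * cexp (-(2 * π * I * n * z)) * f z

lemma IsTheta.comb {n : ℕ} {s C : ℂ} {f g : ℂ → ℂ} (hf : IsTheta n s C f) (hg : IsTheta n s C g)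
    (a b : ℂ) : IsTheta n s C (fun z => a * f z + b * g z) where
  diff := (hf.diff.const_mul a).add (hg.diff.const_mul b)
  one z := by rw [hf.one, hg.one]; ring
  imag z := by rw [hf.imag, hg.imag]; ring

/-- The Fourier coefficient of the `1`-periodic function `f(x) exp(-μ x)`. -/
def coef (μ : ℂ) (m : ℤ) (f : ℂ → ℂ) : ℂ :=
  ∫ x : ℝ in (0 : ℝ)..1, cexp (-(μ + 2 * π * I * m) * x) * f x

lemma coef_comb (μ : ℂ) (m : ℤ) {f g : ℂ → ℂ} (hf : Continuous f) (hg : Continuous g) (a b : ℂ) :
    coef μ m (fun z => a * f z + b * g z) = a * coef μ m f + b * coef μ m g := by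
  unfold coef
  rw [← intervalIntegral.integral_const_mul, ← intervalIntegral.integral_const_mul,
    ← intervalIntegral.integral_add]
  · congr 1; ext x; ring
  · apply Continuous.intervalIntegrable; fun_prop
  · apply Continuous.intervalIntegrable; fun_prop

lemma coef_rec {n : ℕ} {μ C : ℂ} {f : ℂ → ℂ} (hf : IsTheta n (cexp μ) C f) (m : ℤ) :
    coef μ m f = C * cexp (-(μ + 2 * π * I * m) * I) * coef μ (m + n) f := by
  set g : ℂ → ℂ := fun z => cexp (-(μ + 2 * π * I * m) * z) * f z with hg
  have hd : Differentiable ℂ g := by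
    have := hf.diff
    simp only [hg]; fun_prop
  have hper : ∀ z, g (z + 1) = g z := by
    intro z
    simp only [hg]
    rw [hf.one]
    have : cexp (-(μ + 2 * π * I * m) * (z + 1)) * cexp μ = cexp (-(μ + 2 * π * I * m) * z) := by
      rw [← Complex.exp_add]
      have : -(μ + 2 * π * I * m) * (z + 1) + μ
          = -(μ + 2 * π * I * m) * z + (-m : ℤ) * (2 * π * I) := by push_cast; ring
      rw [this, Complex.exp_add, Complex.exp_int_mul_two_pi_mul_I, mul_one]
    rw [← this]; ring
  have key := integral_boundary_rect_eq_zero_of_differentiableOn g 0 (1 + I) hd.differentiableOn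
  simp only [zero_re, add_re, one_re, I_re, add_zero, zero_im, ofReal_zero, zero_mul, add_im,
    one_im, I_im, zero_add, ofReal_one, one_mul] at key
  have h2 : (∫ y : ℝ in (0 : ℝ)..1, g (1 + y * I)) = ∫ y : ℝ in (0 : ℝ)..1, g (y * I) := by
    congr 1; ext y; rw [add_comm, hper]
  rw [h2] at key
  have h3 : (∫ x : ℝ in (0 : ℝ)..1, g x) = ∫ x : ℝ in (0 : ℝ)..1, g (x + I) := by
    linear_combination key
  have h4 : coef μ m f = ∫ x : ℝ in (0 : ℝ)..1, g x := rfl
  rw [h4, h3, coef, ← intervalIntegral.integral_const_mul]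
  congr 1; ext x
  simp only [hg]
  rw [hf.imag]
  have : cexp (-(μ + 2 * π * I * m) * (x + I)) * cexp (-(2 * π * I * n * x))
      = cexp (-(μ + 2 * π * I * m) * I) * cexp (-(μ + 2 * π * I * ((m + n : ℤ) : ℂ)) * x) := by
    rw [← Complex.exp_add, ← Complex.exp_add]; congr 1; push_cast; ring
  linear_combination (C * f x) * this

lemma eq_zero_of_real {f : ℂ → ℂ} (hf : Differentiable ℂ f) (h : ∀ x : ℝ, f x = 0) (z : ℂ) :
    f z = 0 := by
  have ha : AnalyticOnNhd ℂ f Set.univ := hf.differentiableOn.analyticOnNhd isOpen_univ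
  have hfr : ∃ᶠ w in nhdsWithin (0 : ℂ) {(0 : ℂ)}ᶜ, f w = 0 := by
    have ht : Filter.Tendsto (fun x : ℝ => (x : ℂ)) (nhdsWithin 0 {(0 : ℝ)}ᶜ)
        (nhdsWithin (0 : ℂ) {(0 : ℂ)}ᶜ) := by
      apply tendsto_nhdsWithin_of_tendsto_nhds_of_eventually_within
      · have : Filter.Tendsto (fun x : ℝ => (x : ℂ)) (nhds 0) (nhds ((0 : ℝ) : ℂ)) :=
          continuous_ofReal.tendsto 0
        simpa using this.mono_left nhdsWithin_le_nhds
      · filter_upwards [self_mem_nhdsWithin] with x hx
        simpa using hx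
    exact ht.frequently (Filter.Eventually.of_forall h).frequently
  exact ha.eqOn_zero_of_preconnected_of_frequently_eq_zero isPreconnected_univ (Set.mem_univ 0)
    hfr (Set.mem_univ z)

lemma eq_zero_of_all_coef {μ : ℂ} {f : ℂ → ℂ} (hf : Differentiable ℂ f)
    (h1 : ∀ z, f (z + 1) = cexp μ * f z) (h : ∀ m : ℤ, coef μ m f = 0) (z : ℂ) : f z = 0 := by
  have : Fact ((0 : ℝ) < 1) := ⟨one_pos⟩
  set g : ℝ → ℂ := fun x => cexp (-μ * x) * f x with hg
  have hper : Function.Periodic g 1 := by
    intro x
    simp only [hg]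
    push_cast
    rw [h1, ← mul_assoc, ← Complex.exp_add]
    congr 2; ring
  have hc : Continuous g := by
    have := hf.continuous
    simp only [hg]; fun_prop
  let G : C(AddCircle (1 : ℝ), ℂ) := ⟨hper.lift, hc.quotient_liftOn' _⟩
  have hG : ∀ x : ℝ, G (x : AddCircle (1 : ℝ)) = g x := fun x => hper.lift_coe x
  have hcoef : ∀ m, fourierCoeff G m = 0 := by
    intro m
    rw [fourierCoeff_eq_intervalIntegral _ _ 0]
    have := h m
    unfold coef at this
    simp only [zero_add, div_one, one_smul]
    rw [← this]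
    congr 1; ext x
    rw [fourier_coe_apply, hG, smul_eq_mul]
    simp only [hg]
    rw [← mul_assoc, ← Complex.exp_add]
    congr 2; push_cast; ring
  have hs : Summable (fourierCoeff G) := by
    have : fourierCoeff G = 0 := funext hcoef
    rw [this]; exact summable_zero
  have hz : ∀ x : ℝ, g x = 0 := by
    intro x
    have := has_pointwise_sum_fourier_series_of_summable hs (x : AddCircle (1 : ℝ))
    simp only [hcoef, zero_smul] at this
    rw [← hG]
    exact (hasSum_zero.unique this).symm
  apply eq_zero_of_real hf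
  intro x
  have := hz x
  simp only [hg] at this
  exact (mul_eq_zero.1 this).resolve_left (Complex.exp_ne_zero _)

lemma IsTheta.eq_zero {n : ℕ} (hn : 0 < n) {μ C : ℂ} (hC : C ≠ 0) {f : ℂ → ℂ}
    (hf : IsTheta n (cexp μ) C f) (h : ∀ j : ℕ, j < n → coef μ j f = 0) (z : ℂ) : f z = 0 := by
  apply eq_zero_of_all_coef hf.diff hf.one
  have hiff : ∀ m : ℤ, coef μ m f = 0 ↔ coef μ (m + n) f = 0 := by
    intro m
    rw [coef_rec hf m]
    simp [hC, Complex.exp_ne_zero]
  have hq : ∀ (q : ℤ) (j : ℕ), j < n → coef μ (j + q * n) f = 0 := by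
    intro q
    induction q using Int.induction_on with
    | zero => intro j hj; simpa using h j hj
    | succ q ih =>
      intro j hj
      have := (hiff _).1 (ih j hj)
      convert this using 2; ring
    | pred q ih =>
      intro j hj
      apply (hiff _).2
      convert ih j hj using 2; ring
  intro m
  have hn' : (0 : ℤ) < n := by exact_mod_cast hn
  have h0 : 0 ≤ m % n := Int.emod_nonneg _ hn'.ne'
  have h1 : m % n < n := Int.emod_lt_of_pos _ hn'
  have := hq (m / n) (m % n).toNat (by omega)
  rw [Int.toNat_of_nonneg h0] at this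
  convert this using 2
  rw [mul_comm]; exact (Int.emod_add_mul_ediv m n).symm

/-- Degree one: the space has dimension at most one. -/
lemma IsTheta.dim_one {s C : ℂ} (hs : s ≠ 0) (hC : C ≠ 0) {f g : ℂ → ℂ}
    (hf : IsTheta 1 s C f) (hg : IsTheta 1 s C g) {w : ℂ} (hw : g w ≠ 0) :
    ∃ a : ℂ, ∀ z, f z = a * g z := by
  obtain ⟨μ, rfl⟩ : ∃ μ, s = cexp μ := ⟨Complex.log s, (Complex.exp_log hs).symm⟩
  have hg0 : coef μ 0 g ≠ 0 := by
    intro h0
    apply hw
    apply hg.eq_zero one_pos hC
    intro j hj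
    have : j = 0 := by omega
    subst this; simpa using h0
  have h := (hf.comb hg (coef μ 0 g) (-coef μ 0 f)).eq_zero one_pos hC (by
    intro j hj
    have : j = 0 := by omega
    subst this
    rw [coef_comb _ _ hf.diff.continuous hg.diff.continuous]
    simp only [Nat.cast_zero]; ring)
  refine ⟨coef μ 0 f / coef μ 0 g, fun z => ?_⟩
  have := h z
  field_simp
  linear_combination this

/-- Degree two: functions vanishing at a point where some member does not vanish are
proportional. -/
lemma IsTheta.dim_two {s C : ℂ} (hs : s ≠ 0) (hC : C ≠ 0) {f g r : ℂ → ℂ}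
    (hf : IsTheta 2 s C f) (hg : IsTheta 2 s C g) (hr : IsTheta 2 s C r) {p w : ℂ}
    (hfp : f p = 0) (hgp : g p = 0) (hrp : r p ≠ 0) (hw : g w ≠ 0) :
    ∃ a : ℂ, ∀ z, f z = a * g z := by
  obtain ⟨μ, rfl⟩ : ∃ μ, s = cexp μ := ⟨Complex.log s, (Complex.exp_log hs).symm⟩
  have cf := hf.diff.continuous
  have cg := hg.diff.continuous
  have cr := hr.diff.continuous
  have key : ∀ a b c : ℂ, a * coef μ 0 f + b * coef μ 0 g + c * coef μ 0 r = 0 →
      a * coef μ 1 f + b * coef μ 1 g + c * coef μ 1 r = 0 →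
      ∀ z, a * f z + b * g z + c * r z = 0 := by
    intro a b c h0 h1 z
    have := ((hf.comb hg a b).comb hr 1 c).eq_zero two_pos hC (by
      intro j hj
      rw [coef_comb _ _ (hf.comb hg a b).diff.continuous cr, coef_comb _ _ cf cg]
      have : j = 0 ∨ j = 1 := by omega
      rcases this with rfl | rfl
      · simp only [Nat.cast_zero]; linear_combination h0
      · simp only [Nat.cast_one]; linear_combination h1) z
    linear_combination this
  set f0 := coef μ 0 f
  set f1 := coef μ 1 f
  set g0 := coef μ 0 g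
  set g1 := coef μ 1 g
  set r0 := coef μ 0 r
  set r1 := coef μ 1 r
  have hD : g0 * r1 - g1 * r0 ≠ 0 := by
    intro hD
    have h0 : g0 = 0 := by
      have := key 0 r0 (-g0) (by ring) (by linear_combination -hD) p
      rw [hgp] at this
      have h' : g0 * r p = 0 := by linear_combination -this
      exact (mul_eq_zero.1 h').resolve_right hrp
    have h1 : g1 = 0 := by
      have := key 0 r1 (-g1) (by linear_combination hD) (by ring) p
      rw [hgp] at this
      have h' : g1 * r p = 0 := by linear_combination -this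
      exact (mul_eq_zero.1 h').resolve_right hrp
    have := key 0 1 0 (by rw [h0]; ring) (by rw [h1]; ring) w
    apply hw; linear_combination this
  have hall := key (g0 * r1 - g1 * r0) (-(f0 * r1 - f1 * r0)) (f0 * g1 - f1 * g0) (by ring) (by ring)
  have hfg : f0 * g1 - f1 * g0 = 0 := by
    have := hall p
    rw [hfp, hgp] at this
    have h' : (f0 * g1 - f1 * g0) * r p = 0 := by linear_combination this
    exact (mul_eq_zero.1 h').resolve_right hrp
  refine ⟨(f0 * r1 - f1 * r0) / (g0 * r1 - g1 * r0), fun z => ?_⟩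
  have := hall z
  rw [hfg] at this
  rw [div_mul_eq_mul_div, eq_div_iff hD]
  linear_combination this

end

end Pool.Agent.P.MP_a11f68_mp
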